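import Mathlib.Order.Lattice.Nat

/-! Buchi automata, deterministic Rabin automata and the sizes `s n`, `t n`. -/

namespace Pool.Agent.MP_0f075e_lc

/-- A nondeterministic Buchi automaton over the alphabet `A` with state set `Q`. -/
structure NBA (A Q : Type) where
  start : Q
  tr : Q → A → Q → Prop
  acc : Set Q

/-- Some run on `w` from the initial state visits an accepting state infinitely often. -/
def NBA.Accepts {A Q : Type} (B : NBA A Q) (w : ℕ → A) : Prop :=
  ∃ r : ℕ → Q, r 0 = B.start ∧ (∀ i, B.tr (r i) (w i) (r (i + 1))) ∧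
    ∀ N, ∃ i, N ≤ i ∧ r i ∈ B.acc

/-- The Rabin condition of a family of pairs `(E, F)` on an infinite sequence `x`: for some
pair, `x` meets `F` infinitely often and `E` only finitely often. -/
def Rabin {X : Type} (pairs : Set (Set X × Set X)) (x : ℕ → X) : Prop :=
  ∃ p ∈ pairs, (∀ N, ∃ i, N ≤ i ∧ x i ∈ p.2) ∧ ∃ N, ∀ i, N ≤ i → x i ∉ p.1

/-- A state-based deterministic Rabin automaton: at most one transition per state and letter,
pairs of sets of states. -/
structure SDRA (A Q : Type) where
  start : Q
  tr : Q → A → Option Q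
  pairs : Set (Set Q × Set Q)

/-- The run on `w` exists and its sequence of states satisfies the Rabin condition. -/
def SDRA.Accepts {A Q : Type} (D : SDRA A Q) (w : ℕ → A) : Prop :=
  ∃ r : ℕ → Q, r 0 = D.start ∧ (∀ i, D.tr (r i) (w i) = some (r (i + 1))) ∧ Rabin D.pairs r

/-- A transition-based deterministic Rabin automaton: pairs of sets of transitions. -/
structure TDRA (A Q : Type) where
  start : Q
  tr : Q → A → Option Q
  pairs : Set (Set (Q × A × Q) × Set (Q × A × Q))

/-- The run on `w` exists and its sequence of transitions satisfies the Rabin condition. -/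
def TDRA.Accepts {A Q : Type} (D : TDRA A Q) (w : ℕ → A) : Prop :=
  ∃ r : ℕ → Q, r 0 = D.start ∧ (∀ i, D.tr (r i) (w i) = some (r (i + 1))) ∧
    Rabin D.pairs (fun i => (r i, w i, r (i + 1)))

/-- `s n`: the least `m` such that every Buchi automaton with `n` states, over any finite
alphabet, has an equivalent state-based deterministic Rabin automaton with at most `m` states. -/
noncomputable def s (n : ℕ) : ℕ :=
  sInf {m | ∀ (A : Type) [Finite A] (B : NBA A (Fin n)),
    ∃ k ≤ m, ∃ D : SDRA A (Fin k), ∀ w, D.Accepts w ↔ B.Accepts w}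

/-- `t n`: the same with transition-based deterministic Rabin automata. -/
noncomputable def t (n : ℕ) : ℕ :=
  sInf {m | ∀ (A : Type) [Finite A] (B : NBA A (Fin n)),
    ∃ k ≤ m, ∃ D : TDRA A (Fin k), ∀ w, D.Accepts w ↔ B.Accepts w}

end Pool.Agent.MP_0f075e_lc
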