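import Mathlib.Algebra.Order.Archimedean.Basic
import Mathlib.Order.OrderIsoNat
import Mathlib.SetTheory.Cardinal.Finite
import Mathlib.Data.Set.Finite.Lemmas
import Mathlib.Algebra.Order.Ring.Star
import Mathlib.Data.Rat.Star
import Mathlib.Tactic.Algebra.Basic
import Pool.Agent.MP_0f075e_lc.Defs

-- ======== part 0: formerly Pool.Agent.MP_0f075e_lc.Names
section MrgPart0

/-! Node names of ordered trees in the left-child right-sibling coding. -/

namespace Pool.Agent.MP_0f075e_lc

abbrev Nm := List Bool

/-- In-order position of a name. -/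
def val : Nm → ℚ
  | [] => 0
  | false :: x => (val x - 1) / 2
  | true :: x => (val x + 1) / 2

lemma val_bd (x : Nm) : -1 < val x ∧ val x < 1 := by
  induction x with
  | nil => simp [val]
  | cons b x ih => cases b <;> simp only [val] <;> constructor <;> linarith [ih.1, ih.2]

lemma val_inj : Function.Injective val := by
  intro x
  induction x with
  | nil =>
    intro y h
    rcases y with _ | ⟨b, y⟩
    · rfl
    · have := val_bd y
      cases b <;> simp only [val] at h <;> linarith [this.1, this.2]
  | cons a x ih =>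
    intro y h
    have hx := val_bd x
    rcases y with _ | ⟨b, y⟩
    · cases a <;> simp only [val] at h <;> linarith [hx.1, hx.2]
    · have hy := val_bd y
      cases a <;> cases b <;> simp only [val] at h
      · rw [ih (a₂ := y) (by linarith)]
      · linarith [hx.1, hx.2, hy.1, hy.2]
      · linarith [hx.1, hx.2, hy.1, hy.2]
      · rw [ih (a₂ := y) (by linarith)]

lemma val_cons_lt (b : Bool) (x y : Nm) : val (b :: x) < val (b :: y) ↔ val x < val y := by
  cases b <;> simp only [val] <;> constructor <;> intro h <;> linarith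

lemma val_cons_le (b : Bool) (x y : Nm) : val (b :: x) ≤ val (b :: y) ↔ val x ≤ val y := by
  cases b <;> simp only [val] <;> constructor <;> intro h <;> linarith

lemma val_app_lt (u x y : Nm) : val (u ++ x) < val (u ++ y) ↔ val x < val y := by
  induction u with
  | nil => simp
  | cons b u ih => simp only [List.cons_append, val_cons_lt, ih]

lemma val_app_le (u x y : Nm) : val (u ++ x) ≤ val (u ++ y) ↔ val x ≤ val y := by
  induction u with
  | nil => simp
  | cons b u ih => simp only [List.cons_append, val_cons_le, ih]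

lemma val_false_neg (x : Nm) : val (false :: x) < 0 := by
  have := val_bd x; simp only [val]; linarith [this.2]

lemma val_true_pos (x : Nm) : 0 < val (true :: x) := by
  have := val_bd x; simp only [val]; linarith [this.1]

/-- `v` is `w` or a descendant of `w` in the ordered tree. -/
def Anc (w v : Nm) : Prop := v = w ∨ w ++ [false] <+: v

lemma val_lt_of_desc {w v : Nm} (h : w ++ [false] <+: v) : val v < val w := by
  obtain ⟨y, rfl⟩ := h
  have := (val_app_lt w (false :: y) []).2 (by simpa [val] using val_false_neg y)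
  simpa using this

lemma Anc.le {w v : Nm} (h : Anc w v) : val v ≤ val w := by
  rcases h with rfl | h
  · exact le_rfl
  · exact (val_lt_of_desc h).le

lemma anc_cons (b : Bool) (w v : Nm) : Anc (b :: w) (b :: v) ↔ Anc w v := by
  simp [Anc]

lemma Anc.pre {w v : Nm} (h : Anc w v) : w <+: v := by
  rcases h with rfl | h
  · exact List.prefix_refl _
  · exact (List.prefix_append _ _).trans h

lemma cut_lemma (v : Nm) : ∀ x x' : Nm,
    (∀ p, p <+: v → p ≠ v → (val x < val p ↔ val x' < val p) ∧ (val x ≤ val p ↔ val x' ≤ val p)) →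
    v <+: x → v <+: x' := by
  induction v with
  | nil => intro x x' _ _; exact List.nil_prefix
  | cons b v ih =>
    intro x x' h hx
    obtain ⟨y, rfl⟩ := hx
    have h0 := h [] List.nil_prefix (by simp)
    have hx' : ∃ z, x' = b :: z := by
      cases b
      · have h1 := h0.1.1 (by simpa [val] using val_false_neg (v ++ y))
        rcases x' with _ | ⟨c, z⟩
        · simp at h1
        · cases c
          · exact ⟨z, rfl⟩
          · have := val_true_pos z
            simp only [val] at h1 this; linarith
      · have h1 : ¬ val x' ≤ val [] := fun h2 => by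
          have := h0.2.2 h2
          have h3 := val_true_pos (v ++ y)
          simp only [List.cons_append, val] at this h3; linarith
        rcases x' with _ | ⟨c, z⟩
        · simp at h1
        · cases c
          · have := val_false_neg z
            simp only [val] at h1 this; exact absurd this.le h1
          · exact ⟨z, rfl⟩
    obtain ⟨z, rfl⟩ := hx'
    rw [List.cons_prefix_cons]
    refine ⟨rfl, ih (v ++ y) z ?_ (List.prefix_append _ _)⟩
    intro p hp hne
    have := h (b :: p) (by simpa using hp) (by simpa using hne)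
    simpa only [List.cons_append, val_cons_lt, val_cons_le] using this

lemma between (u : Nm) : ∀ w : Nm, val (u ++ [false]) ≤ val w → ¬ u ++ [false] <+: w →
    val u ≤ val w := by
  induction u with
  | nil =>
    intro w _ h
    rcases w with _ | ⟨c, w⟩
    · exact le_rfl
    · cases c
      · simp at h
      · exact (val_true_pos w).le
  | cons b u ih =>
    intro w h1 h2
    have hb := val_bd u
    have hb' := val_bd (u ++ [false])
    rcases w with _ | ⟨c, w⟩
    · cases b
      · exact (val_false_neg u).le
      · have := val_true_pos (u ++ [false])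
        simp only [List.cons_append] at h1
        simp only [val] at h1 this; linarith
    · have hw := val_bd w
      by_cases hc : c = b
      · subst hc
        rw [val_cons_le]
        refine ih w ((val_cons_le c _ _).1 h1) ?_
        simpa using h2
      · cases b <;> cases c <;> simp only [List.cons_append, val] at h1 ⊢ <;>
          first | exact absurd rfl hc | linarith [hb.1, hb.2, hw.1, hw.2, hb'.1, hb'.2]

/-- Collapse to the highest ancestor that hosts nothing. -/
noncomputable def col : (Nm → Prop) → Nm → Nm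
  | _, [] => []
  | H, false :: x => by classical exact if H [] then false :: col (fun y => H (false :: y)) x else []
  | H, true :: x => true :: col (fun y => H (true :: y)) x

/-- Rename after deleting the empty nodes. -/
noncomputable def ren : (Nm → Prop) → Nm → Nm
  | _, [] => []
  | K, false :: x => false :: ren (fun y => K (false :: y)) x
  | K, true :: x => by
      classical
      exact if K [] then true :: ren (fun y => K (true :: y)) x else ren (fun y => K (true :: y)) x

lemma col_anc (x : Nm) : ∀ H : Nm → Prop, Anc (col H x) x := by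
  induction x with
  | nil => intro H; left; rfl
  | cons b x ih =>
    intro H
    cases b
    · by_cases h : H []
      · simp only [col, h, if_true, anc_cons]; exact ih _
      · simp only [col, h, if_false]; right; simp
    · simp only [col, anc_cons]; exact ih _

lemma col_pre (H : Nm → Prop) (x : Nm) : col H x <+: x := (col_anc x H).pre

lemma col_eq (x : Nm) : ∀ H : Nm → Prop, col H x = x ∨ ¬ H (col H x) := by
  induction x with
  | nil => intro H; left; rfl
  | cons b x ih =>
    intro H
    cases b
    · by_cases h : H []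
      · simp only [col, h, if_true, List.cons.injEq, true_and]; exact ih _
      · simp only [col, h, if_false]; right; exact not_false
    · simp only [col, List.cons.injEq, true_and]; exact ih _

lemma col_host (x : Nm) : ∀ (H : Nm → Prop) (w : Nm), w ++ [false] <+: col H x →
    H w ∧ col H w = w := by
  induction x with
  | nil => intro H w h; simp [col] at h
  | cons b x ih =>
    intro H w h
    cases b
    · by_cases h0 : H []
      · simp only [col, h0, if_true] at h
        rcases w with _ | ⟨c, w⟩
        · exact ⟨h0, rfl⟩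
        · simp only [List.cons_append, List.cons_prefix_cons] at h
          obtain ⟨rfl, h⟩ := h
          have := ih _ w h
          exact ⟨this.1, by simp only [col, h0, if_true, this.2]⟩
      · simp [col, h0] at h
    · simp only [col] at h
      rcases w with _ | ⟨c, w⟩
      · simp at h
      · simp only [List.cons_append, List.cons_prefix_cons] at h
        obtain ⟨rfl, h⟩ := h
        have := ih _ w h
        exact ⟨this.1, by simp only [col, this.2]⟩

lemma anc_of_col {H : Nm → Prop} {x v : Nm} (h : Anc v (col H x)) : Anc v x := by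
  rcases h with h | h
  · rw [← h]; exact col_anc x H
  · right; exact h.trans (col_pre H x)

lemma ren_stable (v : Nm) : ∀ (K : Nm → Prop) (y : Nm), (∀ p, p <+: v → p ≠ v → K p) →
    ren K (v ++ y) = v ++ ren (fun z => K (v ++ z)) y := by
  induction v with
  | nil => intro K y _; simp
  | cons b v ih =>
    intro K y h
    have h0 : K [] := h [] List.nil_prefix (by simp)
    have h1 := ih (fun z => K (b :: z)) y (fun p hp hne => h _ (by simpa using hp) (by simpa using hne))
    cases b
    · simp only [List.cons_append, ren, h1]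
    · simp only [List.cons_append, ren, h0, if_true, h1]

lemma ren_self {K : Nm → Prop} {v : Nm} (h : ∀ p, p <+: v → K p) : ren K v = v := by
  have := ren_stable v K [] (fun p hp _ => h p hp)
  simpa [ren] using this

lemma ren_pre (v : Nm) : ∀ (K : Nm → Prop) (x : Nm), (∀ p, p <+: v → p ≠ v → K p) →
    v <+: ren K x → v <+: x := by
  induction v with
  | nil => intro K x _ _; exact List.nil_prefix
  | cons b v ih =>
    intro K x h hx
    have h0 : K [] := h [] List.nil_prefix (by simp)
    rcases x with _ | ⟨c, x⟩
    · simp [ren] at hx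
    · have : ren K (c :: x) = c :: ren (fun y => K (c :: y)) x := by
        cases c <;> simp [ren, h0]
      rw [this, List.cons_prefix_cons] at hx
      obtain ⟨rfl, hx⟩ := hx
      rw [List.cons_prefix_cons]
      exact ⟨rfl, ih _ x (fun p hp hne => h _ (by simpa using hp) (by simpa using hne)) hx⟩

lemma ren_eq {K : Nm → Prop} {v x : Nm} (h : ∀ p, p <+: v → K p) (hx : ren K x = v) : x = v := by
  obtain ⟨y, rfl⟩ := ren_pre v K x (fun p hp _ => h p hp) (by rw [hx])
  rw [ren_stable v K y (fun p hp _ => h p hp)] at hx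
  have h1 : ren (fun z => K (v ++ z)) y = [] := by simpa using hx
  have h0 : K v := h v (List.prefix_refl _)
  rcases y with _ | ⟨c, y⟩
  · simp
  · cases c <;> simp [ren, h0] at h1

lemma ren_desc {K : Nm → Prop} {v x : Nm} (h : ∀ p, p <+: v → K p) :
    v ++ [false] <+: ren K x ↔ v ++ [false] <+: x := by
  have hp : ∀ p, p <+: v ++ [false] → p ≠ v ++ [false] → K p := by
    intro p hp hne
    rcases List.prefix_concat_iff.1 hp with h1 | h1
    · exact absurd h1 hne
    · exact h p h1
  constructor
  · exact ren_pre _ K x hp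
  · rintro ⟨y, rfl⟩
    rw [ren_stable _ K y hp]
    exact List.prefix_append _ _

lemma ren_anc {K : Nm → Prop} {v x : Nm} (h : ∀ p, p <+: v → K p) :
    Anc v (ren K x) ↔ Anc v x := by
  unfold Anc
  rw [ren_desc h]
  constructor
  · rintro (h1 | h1)
    · left; exact ren_eq h h1
    · right; exact h1
  · rintro (rfl | h1)
    · left; exact ren_self h
    · right; exact h1

lemma ren_closed (x : Nm) : ∀ (K : Nm → Prop), K x → (∀ w, w ++ [false] <+: x → K w) →
    ∀ p, p <+: ren K x → ∃ x', K x' ∧ ren K x' = p := by
  induction x with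
  | nil => intro K h _ p hp; exact ⟨[], h, by simpa [ren, eq_comm] using hp⟩
  | cons b x ih =>
    intro K h h2 p hp
    have ih' := ih (fun y => K (b :: y)) h (fun w hw => h2 (b :: w) (by simpa using hw))
    by_cases h0 : K []
    · have e : ∀ y, ren K (b :: y) = b :: ren (fun y => K (b :: y)) y := by
        intro y; cases b <;> simp [ren, h0]
      rcases p with _ | ⟨c, p⟩
      · exact ⟨[], h0, rfl⟩
      · rw [e, List.cons_prefix_cons] at hp
        obtain ⟨rfl, hp⟩ := hp
        obtain ⟨x', h3, h4⟩ := ih' p hp
        exact ⟨c :: x', h3, by rw [e, h4]⟩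
    · cases b
      · exact absurd (h2 [] (by simp)) h0
      · have e : ∀ y, ren K (true :: y) = ren (fun y => K (true :: y)) y := by
          intro y; simp [ren, h0]
        rw [e] at hp
        obtain ⟨x', h3, h4⟩ := ih' p hp
        exact ⟨true :: x', h3, by rw [e, h4]⟩

/-- Number of leading `true` letters. -/
def lead : Nm → ℕ
  | true :: x => lead x + 1
  | _ => 0

lemma lead_mono (x : Nm) : ∀ y : Nm, val x ≤ val y → lead x ≤ lead y := by
  induction x with
  | nil => intro y _; simp [lead]
  | cons b x ih =>
    intro y h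
    cases b
    · simp [lead]
    · have h1 := val_true_pos x
      rcases y with _ | ⟨c, y⟩
      · simp only [val] at h h1; linarith
      · cases c
        · have := val_false_neg y; linarith
        · simp only [lead]; exact Nat.succ_le_succ (ih y ((val_cons_le _ _ _).1 h))

lemma lead_col (x : Nm) : ∀ H : Nm → Prop, lead (col H x) = lead x := by
  induction x with
  | nil => intro H; rfl
  | cons b x ih =>
    intro H
    cases b
    · by_cases h : H [] <;> simp [col, h, lead]
    · simp [col, lead, ih]

lemma lead_ren (x : Nm) : ∀ K : Nm → Prop, lead (ren K x) ≤ lead x ∧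
    (lead (ren K x) = lead x → ∀ i < lead x, K (List.replicate i true)) := by
  induction x with
  | nil => intro K; simp [ren, lead]
  | cons b x ih =>
    intro K
    cases b
    · simp [ren, lead]
    · have := ih (fun y => K (true :: y))
      by_cases h : K []
      · simp only [ren, h, if_true, lead]
        refine ⟨by omega, fun h1 i hi => ?_⟩
        rcases i with _ | i
        · exact h
        · exact this.2 (by omega) i (by omega)
      · simp only [ren, h, if_false, lead]
        exact ⟨by omega, fun h1 => by omega⟩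

lemma anc_lead (x : Nm) : Anc (List.replicate (lead x) true) x := by
  induction x with
  | nil => left; rfl
  | cons b x ih =>
    cases b
    · right; simp [lead]
    · simp only [lead, List.replicate_succ, anc_cons]; exact ih

lemma anc_app (u w v : Nm) : Anc (u ++ w) (u ++ v) ↔ Anc w v := by
  induction u with
  | nil => simp
  | cons b u ih => simp only [List.cons_append, anc_cons, ih]

lemma col_app (v : Nm) : ∀ (H : Nm → Prop) (x : Nm), v <+: col H x →
    ∃ y, x = v ++ y ∧ col H x = v ++ col (fun z => H (v ++ z)) y := by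
  induction v with
  | nil => intro H x _; exact ⟨x, by simp, by simp⟩
  | cons b v ih =>
    intro H x h
    rcases x with _ | ⟨c, x⟩
    · simp [col] at h
    · have e : col H (c :: x) = c :: col (fun y => H (c :: y)) x := by
        cases c
        · by_cases h0 : H []
          · simp [col, h0]
          · simp [col, h0] at h
        · simp [col]
      rw [e, List.cons_prefix_cons] at h
      obtain ⟨rfl, h⟩ := h
      obtain ⟨y, h1, h2⟩ := ih _ x h
      exact ⟨y, by rw [h1]; rfl, by rw [e, h2]; rfl⟩

/-- The name of a new youngest child. -/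
def spawn (n : ℕ) (u : Nm) : Nm := u ++ false :: List.replicate n true

lemma spawn_lt (n : ℕ) (u : Nm) : val (spawn n u) < val u :=
  val_lt_of_desc ⟨List.replicate n true, by simp [spawn]⟩

lemma anc_spawn {n : ℕ} {u v : Nm} (hv : v.length ≤ n) (h : Anc v (spawn n u)) : Anc v u := by
  rcases h with h | h
  · have := congrArg List.length h
    simp [spawn] at this; omega
  · induction v generalizing u with
    | nil =>
      rcases u with _ | ⟨c, u⟩
      · left; rfl
      · right; simpa [spawn] using h
    | cons b v ih =>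
      rcases u with _ | ⟨c, u⟩
      · exfalso
        simp only [spawn, List.nil_append, List.cons_append, List.cons_prefix_cons] at h
        have h1 : false ∈ List.replicate n true := h.2.subset (by simp)
        simp at h1
      · simp only [spawn, List.cons_append, List.cons_prefix_cons] at h
        obtain ⟨rfl, h⟩ := h
        rw [anc_cons]
        exact ih (by simp at hv; omega) h

lemma length_lt_card {Q : Type} [Finite Q] (h : Q → Option Nm)
    (hc : ∀ a v p, h a = some v → p <+: v → ∃ a', h a' = some p) {a : Q} {v : Nm}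
    (hv : h a = some v) : v.length < Nat.card Q := by
  choose f hf using fun i : Fin (v.length + 1) => hc a v (v.take i) hv (List.take_prefix _ _)
  have hinj : Function.Injective f := by
    intro i j hij
    have h1 := hf i
    rw [hij, hf j] at h1
    have h2 := congrArg List.length (Option.some.inj h1)
    simp only [List.length_take] at h2
    have := i.2; have := j.2
    ext; omega
  have := Nat.card_le_card_of_injective f hinj
  simp at this; omega

end Pool.Agent.MP_0f075e_lc

end MrgPart0

-- ======== part 1: formerly Pool.Agent.MP_0f075e_lc.Upper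
section MrgPart1

/-! The history-tree determinisation. -/

namespace Pool.Agent.MP_0f075e_lc

/-- A history tree: every live state gets the name of its host node. -/
@[ext] structure HT (Q : Type) where
  h : Q → Option Nm
  closed : ∀ a v p, h a = some v → p <+: v → ∃ a', h a' = some p
  root : ∀ a v, h a = some v → Anc [] v

section
variable {Q : Type} (acc : Set Q) (T : HT Q) (R : Q → Q → Prop)

def Cand (b : Q) (c : Nm) : Prop :=
  ∃ a u, T.h a = some u ∧ R a b ∧ (c = u ∨ (b ∈ acc ∧ c = spawn (Nat.card Q) u))

open Classical in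
noncomputable def pre (b : Q) : Option Nm :=
  if h : ∃ c, Cand acc T R b c ∧ ∀ c', Cand acc T R b c' → val c ≤ val c' then some h.choose
  else none

def Hs (w : Nm) : Prop := ∃ b, pre acc T R b = some w

def Ks (w : Nm) : Prop := ∃ b x, pre acc T R b = some x ∧ col (Hs acc T R) x = w

variable {acc T R}

lemma pre_spec {b : Q} {x : Nm} (h : pre acc T R b = some x) :
    Cand acc T R b x ∧ ∀ c', Cand acc T R b c' → val x ≤ val c' := by
  unfold pre at h
  split_ifs at h with h1
  rw [← Option.some.inj h]; exact h1.choose_spec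

lemma pre_ex [Finite Q] {b : Q} {c : Nm} (h : Cand acc T R b c) : ∃ x, pre acc T R b = some x := by
  have hfin : {c | Cand acc T R b c}.Finite := by
    refine ((Set.finite_range (fun a => (T.h a).getD [])).union
      (Set.finite_range (fun a => spawn (Nat.card Q) ((T.h a).getD [])))).subset ?_
    rintro c ⟨a, u, h1, -, rfl | ⟨-, rfl⟩⟩
    · left; exact ⟨a, by simp [h1]⟩
    · right; exact ⟨a, by simp [h1]⟩
  obtain ⟨x, hx, hm⟩ := Set.exists_min_image _ val hfin ⟨c, h⟩
  have : ∃ c, Cand acc T R b c ∧ ∀ c', Cand acc T R b c' → val c ≤ val c' := ⟨x, hx, hm⟩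
  exact ⟨this.choose, by simp [pre, this]⟩

lemma Ks_anc {x w : Nm} (h : Ks acc T R x) (hw : Anc w x) : Ks acc T R w := by
  rcases hw with rfl | hw
  · exact h
  · obtain ⟨b, y, h1, rfl⟩ := h
    obtain ⟨⟨b', h2⟩, h3⟩ := col_host y _ w hw
    exact ⟨b', w, h2, h3⟩

lemma anc_nil_iff (x : Nm) : Anc [] x ↔ x = [] ∨ ∃ y, x = false :: y := by
  rcases x with _ | ⟨c, x⟩
  · simp [Anc]
  · cases c <;> simp [Anc]

variable (acc T R)

noncomputable def upd : HT Q where
  h b := (pre acc T R b).map (fun x => ren (Ks acc T R) (col (Hs acc T R) x))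
  closed := by
    intro a v p h hp
    obtain ⟨x, hx, rfl⟩ := Option.map_eq_some_iff.1 h
    have hk : Ks acc T R (col (Hs acc T R) x) := ⟨a, x, hx, rfl⟩
    obtain ⟨x', ⟨b, y, h1, rfl⟩, h2⟩ := ren_closed _ _ hk (fun w hw => Ks_anc hk (Or.inr hw)) p hp
    exact ⟨b, by simp [h1, h2]⟩
  root := by
    intro a v h
    obtain ⟨x, hx, rfl⟩ := Option.map_eq_some_iff.1 h
    obtain ⟨a', u, h1, -, h2⟩ := (pre_spec hx).1
    have hu := (anc_nil_iff u).1 (T.root a' u h1)
    have hx0 : x = [] ∨ ∃ y, x = false :: y := by
      rcases h2 with rfl | ⟨-, rfl⟩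
      · exact hu
      · rcases hu with rfl | ⟨y, rfl⟩ <;> simp [spawn]
    rw [anc_nil_iff]
    rcases hx0 with rfl | ⟨y, rfl⟩
    · simp [col, ren]
    · by_cases h0 : Hs acc T R [] <;> simp [col, h0, ren]

def Stab (v : Nm) : Prop := (∃ a, T.h a = some v) ∧ ∀ p, p <+: v → Ks acc T R p

def Brk (v : Nm) : Prop := Stab acc T R v ∧ ¬ Hs acc T R v

end

lemma konig {Q : Type} [Finite Q] (S : ℕ → Set Q) (R : ℕ → Q → Q → Prop)
    (hne : ∀ t, (S t).Nonempty) (hp : ∀ t, ∀ b ∈ S (t + 1), ∃ a ∈ S t, R t a b) :
    ∃ ρ : ℕ → Q, ∀ t, ρ t ∈ S t ∧ R t (ρ t) (ρ (t + 1)) := by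
  let Ex : ℕ → ℕ → Q → Prop := fun n => Nat.rec (motive := fun _ => ℕ → Q → Prop)
    (fun t a => a ∈ S t) (fun _ ih t a => a ∈ S t ∧ ∃ b, R t a b ∧ ih (t + 1) b) n
  have e0 : ∀ t a, Ex 0 t a ↔ a ∈ S t := fun _ _ => Iff.rfl
  have e1 : ∀ n t a, Ex (n + 1) t a ↔ a ∈ S t ∧ ∃ b, R t a b ∧ Ex n (t + 1) b :=
    fun _ _ _ => Iff.rfl
  have mem : ∀ n t a, Ex n t a → a ∈ S t := by
    intro n t a h
    cases n
    · exact h
    · exact h.1
  have mono1 : ∀ n t a, Ex (n + 1) t a → Ex n t a := by
    intro n
    induction n with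
    | zero => intro t a h; exact h.1
    | succ n ih =>
      intro t a h
      obtain ⟨h1, b, h2, h3⟩ := (e1 (n + 1) t a).1 h
      exact (e1 n t a).2 ⟨h1, b, h2, ih _ _ h3⟩
  have mono : ∀ n m t a, n ≤ m → Ex m t a → Ex n t a := by
    intro n m t a h
    induction h with
    | refl => exact id
    | step _ ih => exact fun h => ih (mono1 _ _ _ h)
  have ex : ∀ n t, ∃ a, Ex n t a := by
    intro n
    induction n with
    | zero => intro t; exact hne t
    | succ n ih =>
      intro t
      obtain ⟨b, hb⟩ := ih (t + 1)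
      obtain ⟨a, ha, hr⟩ := hp t b (mem _ _ _ hb)
      exact ⟨a, (e1 _ _ _).2 ⟨ha, b, hr, hb⟩⟩
  have pig : ∀ (P : Q → Prop) (t : ℕ), (∀ n, ∃ a, P a ∧ Ex n t a) → ∃ a, P a ∧ ∀ n, Ex n t a := by
    intro P t h
    by_contra hc
    push Not at hc
    have hc' : ∀ a, ∃ n, P a → ¬ Ex n t a := by
      intro a
      by_cases hpa : P a
      · obtain ⟨n, hn⟩ := hc a hpa; exact ⟨n, fun _ => hn⟩
      · exact ⟨0, fun h => absurd h hpa⟩
    choose f hf using hc'
    obtain ⟨M, hM⟩ := (Set.finite_range f).bddAbove
    obtain ⟨a, h1, h2⟩ := h M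
    exact hf a h1 (mono _ _ _ _ (hM ⟨a, rfl⟩) h2)
  have step : ∀ t a, (∀ n, Ex n t a) → ∃ b, R t a b ∧ ∀ n, Ex n (t + 1) b := by
    intro t a h
    exact pig (fun b => R t a b) (t + 1) (fun n => ((e1 _ _ _).1 (h (n + 1))).2)
  obtain ⟨a0, -, h0⟩ := pig (fun _ => True) 0 (fun n => by simpa using ex n 0)
  choose f hf using step
  let g : (t : ℕ) → {a // ∀ n, Ex n t a} := fun t =>
    Nat.rec (motive := fun t => {a // ∀ n, Ex n t a}) ⟨a0, h0⟩
      (fun t x => ⟨f t x.1 x.2, (hf t x.1 x.2).2⟩) t
  exact ⟨fun t => (g t).1, fun t => ⟨(g t).2 0, (hf t (g t).1 (g t).2).1⟩⟩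

section
variable {A Q : Type} (B : NBA A Q)

open Classical in
noncomputable def HT0 : HT Q where
  h a := if a = B.start then some [] else none
  closed := by
    intro a v p h hp
    split_ifs at h with h1
    obtain rfl := Option.some.inj h
    exact ⟨B.start, by simp [List.prefix_nil.1 hp]⟩
  root := by
    intro a v h
    split_ifs at h with h1
    obtain rfl := Option.some.inj h
    left; rfl

def rel (c : A) : Q → Q → Prop := fun a b => B.tr a c b

noncomputable def trk (w : ℕ → A) : ℕ → HT Q
  | 0 => HT0 B
  | i + 1 => upd B.acc (trk w i) (rel B (w i))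

def Cond (w : ℕ → A) : Prop :=
  ∃ v, (∀ N, ∃ i, N ≤ i ∧ Brk B.acc (trk B w i) (rel B (w i)) v) ∧
    ∃ N, ∀ i, N ≤ i → Stab B.acc (trk B w i) (rel B (w i)) v

lemma sound [Finite Q] (w : ℕ → A) (h : Cond B w) : B.Accepts w := by
  obtain ⟨v, hF, t0, hE⟩ := h
  let S : ℕ → Set Q := fun t => {a | ∃ x, (trk B w t).h a = some x ∧ (t0 ≤ t → Anc v x)}
  let R : ℕ → Q → Q → Prop := fun t a b => B.tr a (w t) b ∧
    (b ∉ B.acc → pre B.acc (trk B w t) (rel B (w t)) b = (trk B w t).h a)
  have hp : ∀ t, ∀ b ∈ S (t + 1), ∃ a ∈ S t, R t a b := by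
    rintro t b ⟨x, hx, hv⟩
    obtain ⟨y, hy, rfl⟩ := Option.map_eq_some_iff.1 hx
    obtain ⟨a, u, h1, h2, h3⟩ := (pre_spec hy).1
    refine ⟨a, ⟨u, h1, fun ht => ?_⟩, h2, fun hb => ?_⟩
    · have hs := hE t ht
      have h4 := anc_of_col ((ren_anc hs.2).1 (hv (by omega)))
      rcases h3 with rfl | ⟨-, rfl⟩
      · exact h4
      · obtain ⟨a', ha'⟩ := hs.1
        exact anc_spawn (length_lt_card _ (trk B w t).closed ha').le h4
    · rcases h3 with rfl | ⟨h5, -⟩
      · rw [hy, h1]
      · exact absurd h5 hb
  have hne : ∀ t, (S t).Nonempty := by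
    have h1 : ∀ k t, t0 ≤ t + k → (S t).Nonempty := by
      intro k
      induction k with
      | zero =>
        intro t ht
        obtain ⟨a, ha⟩ := (hE t ht).1
        exact ⟨a, v, ha, fun _ => Or.inl rfl⟩
      | succ k ih =>
        intro t ht
        obtain ⟨b, hb⟩ := ih (t + 1) (by omega)
        obtain ⟨a, ha, -⟩ := hp t b hb
        exact ⟨a, ha⟩
    exact fun t => h1 t0 t (by omega)
  obtain ⟨ρ, hρ⟩ := konig S R hne hp
  refine ⟨ρ, ?_, fun i => (hρ i).2.1, ?_⟩
  · obtain ⟨x, hx, -⟩ := (hρ 0).1
    by_contra hc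
    simp [trk, HT0, hc] at hx
  · by_contra hc
    push Not at hc
    obtain ⟨t1, h1⟩ := hc
    obtain ⟨t, ht, hb⟩ := hF (max t0 t1)
    have ht0 : t0 ≤ t := le_of_max_le_left ht
    have ht1 : t1 ≤ t := le_of_max_le_right ht
    have key : ∀ k, (trk B w (t + 1 + k)).h (ρ (t + 1 + k)) = some v := by
      intro k
      induction k with
      | zero =>
        obtain ⟨x, hx, hv⟩ := (hρ (t + 1)).1
        obtain ⟨y, hy, rfl⟩ := Option.map_eq_some_iff.1 hx
        have h4 := (ren_anc hb.1.2).1 (hv (by omega))
        rcases h4 with h4 | h4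
        · rw [add_zero, hx, h4, ren_self hb.1.2]
        · exact absurd (col_host _ _ _ h4).1 hb.2
      | succ k ih =>
        have h2 := (hρ (t + 1 + k)).2.2 (h1 _ (by omega))
        rw [ih] at h2
        obtain ⟨x, hx, hv⟩ := (hρ (t + 1 + k + 1)).1
        have hx' := hx
        obtain ⟨y, hy, rfl⟩ := Option.map_eq_some_iff.1 hx
        rw [h2] at hy
        obtain rfl := Option.some.inj hy
        have hs := hE (t + 1 + k) (by omega)
        have h4 := (ren_anc hs.2).1 (hv (by omega))
        rcases h4 with h4 | h4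
        · rw [← add_assoc, hx', h4, ren_self hs.2]
        · have := (h4.trans (col_pre _ _)).length_le
          simp at this
    obtain ⟨t', ht', hb'⟩ := hF (t + 1)
    obtain ⟨k, rfl⟩ := Nat.exists_eq_add_of_le ht'
    have h2 := (hρ (t + 1 + k)).2.2 (h1 _ (by omega))
    rw [key k] at h2
    exact hb'.2 ⟨_, h2⟩

lemma complete [Finite Q] (w : ℕ → A) (h : B.Accepts w) : Cond B w := by
  obtain ⟨ρ, h0, htr, hacc⟩ := h
  have hx : ∀ t, ∃ x, (trk B w t).h (ρ t) = some x := by
    intro t
    induction t with
    | zero => exact ⟨[], by simp [trk, HT0, h0]⟩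
    | succ t ih =>
      obtain ⟨x, hx⟩ := ih
      obtain ⟨y, hy⟩ := pre_ex (acc := B.acc) (R := rel B (w t)) ⟨ρ t, x, hx, htr t, Or.inl rfl⟩
      exact ⟨_, by simp only [trk, upd, hy, Option.map_some]; rfl⟩
  choose x hx using hx
  have hp : ∀ t, ∃ p, pre B.acc (trk B w t) (rel B (w t)) (ρ (t + 1)) = some p :=
    fun t => pre_ex ⟨ρ t, x t, hx t, htr t, Or.inl rfl⟩
  choose p hp using hp
  set H : ℕ → Nm → Prop := fun t => Hs B.acc (trk B w t) (rel B (w t)) with hH
  set K : ℕ → Nm → Prop := fun t => Ks B.acc (trk B w t) (rel B (w t)) with hK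
  have hle : ∀ t, val (p t) ≤ val (x t) :=
    fun t => (pre_spec (hp t)).2 _ ⟨ρ t, x t, hx t, htr t, Or.inl rfl⟩
  have hlt : ∀ t, ρ (t + 1) ∈ B.acc → val (p t) < val (x t) := fun t ha =>
    ((pre_spec (hp t)).2 _ ⟨ρ t, x t, hx t, htr t, Or.inr ⟨ha, rfl⟩⟩).trans_lt (spawn_lt _ _)
  have hnext : ∀ t, x (t + 1) = ren (K t) (col (H t) (p t)) := by
    intro t
    have := hx (t + 1)
    simp only [trk, upd, hp t, Option.map_some] at this
    exact (Option.some.inj this).symm
  have hKp : ∀ t, K t (col (H t) (p t)) := fun t => ⟨_, _, hp t, rfl⟩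
  let Good : Nm → Prop := fun v => ∃ N, ∀ t, N ≤ t →
    Stab B.acc (trk B w t) (rel B (w t)) v ∧ Anc v (x t)
  have g0 : Good [] := by
    refine ⟨0, fun t _ => ⟨⟨(trk B w t).closed _ _ _ (hx t) List.nil_prefix, fun q hq => ?_⟩,
      (trk B w t).root _ _ (hx t)⟩⟩
    rw [List.prefix_nil.1 hq]
    have h1 := (trk B w (t + 1)).root _ _ (hx (t + 1))
    rw [hnext] at h1
    have h2 := (trk B w t).root _ _ (hx t)
    have h3 : val (p t) ≤ 0 := (hle t).trans h2.le
    refine Ks_anc (hKp t) ?_
    rw [anc_nil_iff]
    rcases hq' : p t with _ | ⟨c, y⟩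
    · simp [col]
    · cases c
      · by_cases h4 : H t [] <;> simp [col, h4]
      · have := val_true_pos y
        rw [hq'] at h3; linarith
  have gstep : ∀ v, Good v → (¬ ∀ N, ∃ i, N ≤ i ∧ Brk B.acc (trk B w i) (rel B (w i)) v) →
      ∃ v', Good v' ∧ v.length < v'.length := by
    rintro v ⟨N0, hN0⟩ hb
    push Not at hb
    obtain ⟨N1, hN1⟩ := hb
    have hhost : ∀ t, N0 ≤ t → N1 ≤ t → H t v := by
      intro t h1 h2
      by_contra hc
      exact hN1 t h2 ⟨(hN0 t h1).1, hc⟩
    have hA : ∀ t, N0 ≤ t → N1 ≤ t → val (p t) < val v → v ++ [false] <+: x (t + 1) := by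
      intro t h1 h2 h3
      rcases (hN0 (t + 1) (by omega)).2 with h4 | h4
      · rw [hnext] at h4
        have h5 := ren_eq (hN0 t h1).1.2 h4
        rcases col_eq (p t) (H t) with h6 | h6
        · rw [h6] at h5; rw [h5] at h3; exact absurd h3 (lt_irrefl _)
        · rw [h5] at h6; exact absurd (hhost t h1 h2) h6
      · exact h4
    obtain ⟨t1, ht1, ha⟩ := hacc (max N0 N1 + 1)
    obtain ⟨t2, rfl⟩ : ∃ t2, t1 = t2 + 1 := ⟨t1 - 1, by omega⟩
    have h20 : N0 ≤ t2 := by omega
    have h21 : N1 ≤ t2 := by omega
    have hB : ∀ k, v ++ [false] <+: x (t2 + 1 + k) := by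
      intro k
      induction k with
      | zero => exact hA t2 h20 h21 ((hlt t2 ha).trans_le (hN0 t2 h20).2.le)
      | succ k ih =>
        exact hA (t2 + 1 + k) (by omega) (by omega) ((hle _).trans_lt (val_lt_of_desc ih))
    choose y hy using hB
    have hC : ∀ k, lead (y (k + 1)) ≤ lead (y k) ∧ (lead (y (k + 1)) = lead (y k) →
        ∀ i ≤ lead (y k), K (t2 + 1 + k) (v ++ [false] ++ List.replicate i true)) := by
      intro k
      set t := t2 + 1 + k with ht
      have hs := (hN0 t (by omega)).1.2
      have h1 : v ++ [false] <+: col (H t) (p t) := by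
        rw [← ren_desc hs, ← hnext]; exact ⟨y (k + 1), hy (k + 1)⟩
      obtain ⟨z, hz1, hz2⟩ := col_app _ _ _ h1
      have hq : ∀ q, q <+: v ++ [false] → q ≠ v ++ [false] → K t q := by
        intro q hq hne
        rcases List.prefix_concat_iff.1 hq with h2 | h2
        · exact absurd h2 hne
        · exact hs q h2
      have h2 : y (k + 1) = ren (fun z => K t (v ++ [false] ++ z))
          (col (fun z => H t (v ++ [false] ++ z)) z) := by
        have h3 := hy (k + 1)
        rw [show t2 + 1 + (k + 1) = t + 1 by omega, hnext, hz2, ren_stable _ _ _ hq] at h3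
        exact List.append_cancel_left h3
      have h3 : lead z ≤ lead (y k) := by
        apply lead_mono
        rw [← val_app_le (v ++ [false]), ← hz1, hy k]; exact hle t
      have h4 := lead_ren (col (fun z => H t (v ++ [false] ++ z)) z)
        (fun z => K t (v ++ [false] ++ z))
      rw [← h2, lead_col] at h4
      refine ⟨by omega, fun he i hi => ?_⟩
      rcases hi.lt_or_eq with hi | rfl
      · exact h4.2 (by omega) i (by omega)
      · refine Ks_anc (hKp t) ?_
        rw [hz2, anc_app]
        have h5 := anc_lead (col (fun z => H t (v ++ [false] ++ z)) z)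
        rw [lead_col] at h5
        rw [show lead (y k) = lead z by omega]; exact h5
    have hanti : Antitone (fun k => lead (y k)) := antitone_nat_of_succ_le (fun k => (hC k).1)
    obtain ⟨k0, hk0⟩ : ∃ k0, ∀ k, k0 ≤ k → lead (y k) = lead (y k0) := by
      obtain ⟨k0, hk0⟩ := WellFoundedLT.antitone_chain_condition hanti
      exact ⟨k0, fun k hk => (hk0 k hk).symm⟩
    refine ⟨v ++ [false] ++ List.replicate (lead (y k0)) true, ⟨t2 + 1 + k0, fun t ht => ?_⟩,
      by simp⟩
    obtain ⟨k, rfl⟩ : ∃ k, t = t2 + 1 + k := ⟨t - (t2 + 1), by omega⟩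
    have hk : k0 ≤ k := by omega
    have h1 : Anc (v ++ [false] ++ List.replicate (lead (y k0)) true) (x (t2 + 1 + k)) := by
      rw [← hy k, anc_app, ← hk0 k hk]; exact anc_lead _
    refine ⟨⟨(trk B w _).closed _ _ _ (hx _) h1.pre, fun q hq => ?_⟩, h1⟩
    rcases le_or_gt q.length v.length with hl | hl
    · refine (hN0 _ (by omega)).1.2 q ?_
      refine List.prefix_of_prefix_length_le hq ?_ hl
      rw [List.append_assoc]; exact List.prefix_append _ _
    · obtain ⟨z, rfl⟩ : v ++ [false] <+: q :=
        List.prefix_of_prefix_length_le (List.prefix_append _ _) hq (by simp; omega)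
      have h2 : z <+: List.replicate (lead (y k0)) true := (List.prefix_append_right_inj _).1 hq
      have h3 : z = List.replicate z.length true :=
        List.eq_replicate_iff.2 ⟨rfl, fun b hb => List.eq_of_mem_replicate (h2.subset hb)⟩
      have h4 : z.length ≤ lead (y k0) := by simpa using h2.length_le
      rw [h3]
      exact (hC k).2 (by rw [hk0 k hk, hk0 (k + 1) (by omega)]) _ (by rw [hk0 k hk]; exact h4)
  have gbd : ∀ v, Good v → v.length < Nat.card Q := by
    rintro v ⟨N, hN⟩
    obtain ⟨a, ha⟩ := (hN N le_rfl).1.1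
    exact length_lt_card _ (trk B w N).closed ha
  by_contra hc
  have : ∀ k, ∃ v, Good v ∧ k ≤ v.length := by
    intro k
    induction k with
    | zero => exact ⟨[], g0, le_rfl⟩
    | succ k ih =>
      obtain ⟨v, hv, hk⟩ := ih
      obtain ⟨v', h1, h2⟩ := gstep v hv (fun h => hc ⟨v, h, by
        obtain ⟨N, hN⟩ := hv
        exact ⟨N, fun i hi => (hN i hi).1⟩⟩)
      exact ⟨v', h1, by omega⟩
  obtain ⟨v, h1, h2⟩ := this (Nat.card Q)
  have := gbd v h1
  omega

end

end Pool.Agent.MP_0f075e_lc

end MrgPart1

-- marker of a merged file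
example : 731051 + 687567 = 731051 + 687567 := rfl
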