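import Pool.Agent.MP_0f075e_lc.Lower

/-! The numerical comparison. -/

namespace Pool.Agent.MP_0f075e_lc

lemma s_lower (n j m : ℕ) (hn : 0 < n) :
    (n + 4 * j).descFactorial (4 * j) * (catalan m * (SS n (m + 1) * m.descFactorial j)) ≤
      j.factorial * 512 ^ j * (s (n + 4 * j + 1) + 1) := by
  let P := Fin (n + 4 * j)
  have : Nonempty P := ⟨⟨0, by omega⟩⟩
  let e : Fin (n + 4 * j + 1) ≃ Option P := finSuccEquiv _
  let B : NBA (Lt P) (Fin (n + 4 * j + 1)) := ⟨e.symm none, fun a c b => c (e a) (e b), {e.symm none}⟩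
  have hB : ∀ w, B.Accepts w ↔ (B0 P).Accepts w := by
    intro w
    constructor
    · rintro ⟨r, h0, h1, h2⟩
      refine ⟨fun i => e (r i), by simp [h0, B, B0], h1, fun N => ?_⟩
      obtain ⟨i, hi, h⟩ := h2 N
      exact ⟨i, hi, by have : r i = e.symm none := h; simp [this, B0]⟩
    · rintro ⟨r, h0, h1, h2⟩
      refine ⟨fun i => e.symm (r i), by simp [h0, B, B0], fun i => by simpa [B, B0] using h1 i,
        fun N => ?_⟩
      obtain ⟨i, hi, h⟩ := h2 N
      exact ⟨i, hi, by have : r i = none := h; simp [this, B]⟩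
  obtain ⟨k, hk, D, hD⟩ := Nat.sInf_mem (s_nonempty (n + 4 * j + 1)) (Lt P) B
  obtain ⟨δ, q0, Acc, hA⟩ := muller D
  have h1 := lower_sum (P := P) (δ := δ) (q0 := q0) (Acc := Acc)
    (fun w => (hA w).trans ((hD w).trans (hB w))) j
  refine (data_le n j m).trans (h1.trans (Nat.mul_le_mul_left _ ?_))
  simpa [s] using hk

lemma four_pow_le (m : ℕ) : 4 ^ m ≤ (2 * m + 1) * ((m + 1) * catalan m) := by
  rw [succ_mul_catalan_eq_centralBinom]
  rcases m with _ | m
  · simp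
  · exact (Nat.four_pow_le_two_mul_self_mul_centralBinom _ (by omega)).trans
      (Nat.mul_le_mul_right _ (by omega))

lemma nat_gap (N j : ℕ) (hj : 1 ≤ j) (hN : 50000000 * j ≤ N) :
    2 ^ j * t N ≤ 200 * (N + 1) ^ 5 * (s N + 1) := by
  obtain ⟨n, rfl⟩ : ∃ n, N = n + 4 * j + 1 := ⟨N - (4 * j + 1), by omega⟩
  obtain ⟨m', h1, h2, h3⟩ := WW_max n
  obtain ⟨m, rfl⟩ : ∃ m, m' = m + 1 := ⟨m' - 1, by omega⟩
  have a1 := s_lower n j m (by omega)
  have a2 : t (n + 4 * j + 1) ≤ (5 * (n + (4 * j + 2))) ^ (4 * j + 2) * WW n :=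
    (t_le _).trans (WW_add n (4 * j + 2))
  have a3 := four_pow_le m
  have a4 : (n + 1) ^ (4 * j) ≤ (n + 4 * j).descFactorial (4 * j) := by
    have := Nat.pow_sub_le_descFactorial (n + 4 * j) (4 * j)
    rwa [show n + 4 * j + 1 - 4 * j = n + 1 by omega] at this
  have a5 : (10240000 * j) ^ j ≤ m.descFactorial j :=
    (Nat.pow_le_pow_left (by omega) j).trans (Nat.pow_sub_le_descFactorial m j)
  have a6 : j.factorial ≤ j ^ j := Nat.factorial_le_pow j
  have a7 : (5 * (n + (4 * j + 2))) ^ (4 * j + 2) ≤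
      10000 ^ j * (n + 1) ^ (4 * j) * (25 * (n + 4 * j + 1 + 1) ^ 2) := by
    rw [pow_add]
    refine Nat.mul_le_mul ?_ (le_of_eq (by ring))
    calc _ ≤ (10 * (n + 1)) ^ (4 * j) := Nat.pow_le_pow_left (by omega) _
      _ = _ := by rw [mul_pow, pow_mul 10]; norm_num
  set M := n + 4 * j + 1 + 1 with hM
  have a8 : (n + 1) * (4 ^ (m + 1) * SS n (m + 1)) ≤ 8 * M ^ 3 * (catalan m * SS n (m + 1)) := by
    calc (n + 1) * (4 ^ (m + 1) * SS n (m + 1)) = 4 * (n + 1) * 4 ^ m * SS n (m + 1) := by ring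
      _ ≤ 4 * M * ((2 * M) * (M * catalan m)) * SS n (m + 1) := by
          gcongr
          · omega
          · exact a3.trans (by gcongr <;> omega)
      _ = _ := by ring
  have hpos : 0 < j ^ j * 512 ^ j := by positivity
  refine Nat.le_of_mul_le_mul_left ?_ hpos
  calc j ^ j * 512 ^ j * (2 ^ j * t (n + 4 * j + 1))
      ≤ j ^ j * 512 ^ j * (2 ^ j * (10000 ^ j * (n + 1) ^ (4 * j) * (25 * M ^ 2) *
          (8 * M ^ 3 * (catalan m * SS n (m + 1))))) := by
        gcongr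
        exact a2.trans (Nat.mul_le_mul a7 (h3.trans a8))
    _ = 200 * M ^ 5 * ((n + 1) ^ (4 * j) * (catalan m * (SS n (m + 1) * (10240000 * j) ^ j))) := by
        rw [show 10240000 = 512 * 2 * 10000 by norm_num, mul_pow, mul_pow, mul_pow]; ring
    _ ≤ 200 * M ^ 5 * (j.factorial * 512 ^ j * (s (n + 4 * j + 1) + 1)) := by
        refine Nat.mul_le_mul_left _ (le_trans ?_ a1)
        gcongr
    _ ≤ 200 * M ^ 5 * (j ^ j * 512 ^ j * (s (n + 4 * j + 1) + 1)) := by gcongr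
    _ = _ := by ring

theorem gap : ∃ c : ℝ, 1 < c ∧ ∃ N : ℕ, ∀ n, N ≤ n → c ^ n * (t n : ℝ) ≤ (s n : ℝ) := by
  set c : ℝ := (2 : ℝ) ^ ((1 : ℝ) / 100000000) with hc
  have c1 : 1 < c := Real.one_lt_rpow (by norm_num) (by norm_num)
  have c2 : c ^ 100000000 = 2 := by
    rw [hc, ← Real.rpow_natCast, ← Real.rpow_mul (by norm_num)]; norm_num
  have h1 := tendsto_pow_const_div_const_pow_of_one_lt 5 c1
  obtain ⟨N, hN⟩ := Filter.eventually_atTop.1
    (h1.eventually (gt_mem_nhds (show (0 : ℝ) < 1 / 25600 by norm_num)))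
  refine ⟨c, c1, max N 50000000, fun n hn => ?_⟩
  have hn1 : N ≤ n := le_of_max_le_left hn
  have hn2 : 50000000 ≤ n := le_of_max_le_right hn
  have h2 := hN n hn1
  have cpos : 0 < c ^ n := by positivity
  rw [div_lt_iff₀ cpos] at h2
  have h3 : ((2 ^ (n / 50000000) * t n : ℕ) : ℝ) ≤ (200 * (n + 1) ^ 5 * (s n + 1) : ℕ) := by
    exact_mod_cast nat_gap n (n / 50000000) (by omega) (by omega)
  push_cast at h3
  have h4 : c ^ n * c ^ n ≤ 2 * 2 ^ (n / 50000000) := by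
    rw [← pow_add, ← pow_succ', ← c2, ← pow_mul]
    exact pow_le_pow_right₀ c1.le (by omega)
  have h5 : ((n : ℝ) + 1) ^ 5 ≤ 32 * n ^ 5 := by
    have : (1 : ℝ) ≤ n := by exact_mod_cast (by omega : 1 ≤ n)
    calc ((n : ℝ) + 1) ^ 5 ≤ (2 * n) ^ 5 := by gcongr; linarith
      _ = _ := by ring
  have t0 : (0 : ℝ) ≤ t n := Nat.cast_nonneg _
  have s0 : (0 : ℝ) ≤ s n := Nat.cast_nonneg _
  have h6 : 2 * (c ^ n * t n) ≤ s n + 1 := by
    refine le_of_mul_le_mul_left ?_ cpos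
    calc c ^ n * (2 * (c ^ n * t n)) = 2 * (c ^ n * c ^ n) * t n := by ring
      _ ≤ 2 * (2 * 2 ^ (n / 50000000)) * t n := by gcongr
      _ = 4 * (2 ^ (n / 50000000) * t n) := by ring
      _ ≤ 4 * (200 * (32 * n ^ 5) * (s n + 1)) := by
          refine mul_le_mul_of_nonneg_left (h3.trans ?_) (by norm_num); gcongr
      _ = (25600 * n ^ 5) * (s n + 1) := by ring
      _ ≤ _ := by gcongr; linarith
  rcases Nat.eq_zero_or_pos (t n) with h | h
  · rw [h]; simp
  · have : (1 : ℝ) ≤ t n := by exact_mod_cast h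
    have h7 : 1 ≤ c ^ n := one_le_pow₀ c1.le
    nlinarith

end Pool.Agent.MP_0f075e_lc
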