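import Pool.Agent.MP_0f075e_lc.Stage

/-! Independent Rabin pairs inside one component. -/

namespace Pool.Agent.MP_0f075e_lc

lemma exists_mac {P κ : Type} [Finite P] [Finite κ] (h : P → ℚ) (N : Set ℚ)
    (hN : N ⊆ Set.range h) (G : κ × Fin 4 → P) (hG : Function.Injective G)
    (g2 : ∀ i, h (G (i, 2)) = h (G (i, 1))) (g3 : ∀ i, h (G (i, 3)) = h (G (i, 1)))
    (g0 : ∀ i, h (G (i, 0)) < h (G (i, 1))) (gN : ∀ i, h (G (i, 0)) ∉ N)
    (gw : ∀ i, ∀ w ∈ N, h (G (i, 0)) ≤ w → h (G (i, 1)) ≤ w)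
    (gs : ∀ i a, h a = h (G (i, 0)) → a = G (i, 0)) :
    ∃ (r : List (Lt P)) (c : (κ → Option Bool) → Lt P), ∀ e, Mor N h (r ++ [c e]) h ∧
      (∀ a b, pp a (r ++ [c e]) b → h b ≤ h a) ∧
      (∀ a b, pa a (r ++ [c e]) b → h b < h a ∨ ∃ i, a = G (i, 0) ∧ b = G (i, 0) ∧
        e i = some true) ∧
      (∀ i, pp (G (i, 0)) (r ++ [c e]) (G (i, 0)) ↔ e i ≠ some false) ∧
      ∀ i, e i = some true → pa (G (i, 0)) (r ++ [c e]) (G (i, 0)) := by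
  classical
  obtain ⟨ρ, cρ, r1, r2⟩ := exists_rho h
  have hG' : ∀ i j a b, G (i, a) = G (j, b) ↔ i = j ∧ a = b := fun i j a b => by
    rw [hG.eq_iff, Prod.mk.injEq]
  let sp : P → Prop := fun a => ∃ i, a = G (i, 2) ∨ a = G (i, 3)
  let K : P → P → Prop := fun a b => a = b ∧ ¬ sp a
  let S : P → P → Prop := fun a b => ∃ i, (a = G (i, 0) ∧ b = G (i, 2)) ∨ (a = G (i, 1) ∧ b = G (i, 3))
  let l : List (P × P) := (Set.toFinite {z : P × P | S z.1 z.2}).toFinset.toList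
  have hl : ∀ z, z ∈ l ↔ S z.1 z.2 := by intro z; simp [l]
  have hs := arcs_sub S (by
    rintro a b c ⟨i, ⟨-, rfl⟩ | ⟨-, rfl⟩⟩ ⟨j, ⟨h1, -⟩ | ⟨h1, -⟩⟩ <;> simp [hG'] at h1) l
    (fun z hz => (hl z).1 hz)
  let R : (κ → Option Bool) → P → P → Prop := fun e a b =>
    (a = b ∧ ¬ sp b ∧ ∀ i, b ≠ G (i, 0)) ∨ ∃ i, (a = G (i, 1) ∧ (b = G (i, 2) ∨ b = G (i, 3))) ∨
      (b = G (i, 0) ∧ ((e i = none ∧ a = G (i, 0)) ∨ (e i = some true ∧ a = G (i, 2)) ∨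
        (e i = some false ∧ a = G (i, 3))))
  let tl : (κ → Option Bool) → List (Lt P) := fun e => relL K ++ (arcs l ++ relL (R e))
  have ctl : ∀ e, Clean (tl e) := fun e => (clean_rel _).app ((clean_arcs _).app (clean_rel _))
  have ns0 : ∀ i, ¬ sp (G (i, 0)) := by rintro i ⟨j, h1 | h1⟩ <;> simp [hG'] at h1
  have ns1 : ∀ i, ¬ sp (G (i, 1)) := by rintro i ⟨j, h1 | h1⟩ <;> simp [hG'] at h1
  have sR : ∀ e c d b, S c d → R e d b → ∃ i, b = G (i, 0) ∧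
      ((c = G (i, 0) ∧ e i = some true) ∨ c = G (i, 1)) := by
    rintro e c d b ⟨i, ⟨rfl, rfl⟩ | ⟨rfl, rfl⟩⟩
      (⟨rfl, h1, -⟩ | ⟨j, ⟨h1, -⟩ | ⟨rfl, ⟨h1, h2⟩ | ⟨h1, h2⟩ | ⟨h1, h2⟩⟩⟩)
    any_goals first | exact absurd ⟨i, Or.inl rfl⟩ h1 | exact absurd ⟨i, Or.inr rfl⟩ h1
    any_goals first | (simp [hG'] at h1) | (simp [hG'] at h2; done)
    · obtain rfl : i = j := by simpa [hG'] using h2
      exact ⟨i, rfl, Or.inl ⟨rfl, h1⟩⟩
    · obtain rfl : i = j := by simpa [hG'] using h2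
      exact ⟨i, rfl, Or.inr rfl⟩
  have t1 : ∀ e c b, pp c (tl e) b → (c = b ∧ ∀ i, b = G (i, 0) → e i ≠ some false) ∨
      ∃ i, c = G (i, 1) ∧ (b = G (i, 2) ∨ b = G (i, 3) ∨ b = G (i, 0)) := by
    intro e c b hp
    obtain ⟨c', h1, h2⟩ := (clean_rel _).pp_app hp
    obtain ⟨rfl, hn⟩ := (pp_rel _ _ _).1 h1
    obtain ⟨d, h3, h4⟩ := (clean_arcs _).pp_app h2
    rw [pp_rel] at h4
    rcases (hs _ _).1 h3 with rfl | h5
    · rcases h4 with ⟨rfl, -, h6⟩ | ⟨j, ⟨rfl, h6⟩ | ⟨rfl, ⟨h6, rfl⟩ | ⟨h6, rfl⟩ | ⟨h6, rfl⟩⟩⟩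
      · exact Or.inl ⟨rfl, fun i hi => absurd hi (h6 i)⟩
      · exact Or.inr ⟨j, rfl, by tauto⟩
      · refine Or.inl ⟨rfl, fun i hi => ?_⟩
        obtain rfl : j = i := by simpa [hG'] using hi
        rw [h6]; simp
      · exact absurd ⟨j, Or.inl rfl⟩ hn
      · exact absurd ⟨j, Or.inr rfl⟩ hn
    · obtain ⟨i, rfl, ⟨rfl, h6⟩ | rfl⟩ := sR e _ _ _ h5 h4
      · refine Or.inl ⟨rfl, fun j hj => ?_⟩
        obtain rfl : i = j := by simpa [hG'] using hj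
        rw [h6]; simp
      · exact Or.inr ⟨i, rfl, by tauto⟩
  have t2 : ∀ e c b, pa c (tl e) b → ∃ i, b = G (i, 0) ∧
      ((c = G (i, 0) ∧ e i = some true) ∨ c = G (i, 1)) := by
    intro e c b hp
    obtain ⟨c', ⟨h1, -⟩ | ⟨h1, h2⟩⟩ := (clean_rel _).pa_app hp
    · exact absurd h1 (pa_rel _ _ _)
    obtain ⟨rfl, -⟩ := (pp_rel _ _ _).1 h1
    obtain ⟨d, ⟨h3, h4⟩ | ⟨-, h4⟩⟩ := (clean_arcs _).pa_app h2
    · exact sR e _ _ _ ((hs _ _).2 h3) ((pp_rel _ _ _).1 h4)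
    · exact absurd h4 (pa_rel _ _ _)
  have p1 : ∀ e c b, ¬ sp c → R e c b → pp c (tl e) b := fun e c b h1 h2 =>
    pp_of ((pp_rel _ _ _).2 ⟨rfl, h1⟩) (pp_of (arcs_refl _ _) ((pp_rel _ _ _).2 h2))
  have p2 : ∀ e c d b, ¬ sp c → S c d → R e d b → pa c (tl e) b := fun e c d b h1 h2 h3 =>
    pa_of2 ((pp_rel _ _ _).2 ⟨rfl, h1⟩) (pa_of1 (arcs_mem _ ((hl (c, d)).2 h2)) ((pp_rel _ _ _).2 h3))
  have pT : ∀ e i, e i = some true → pa (G (i, 0)) (tl e) (G (i, 0)) := fun e i hi =>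
    p2 e _ _ _ (ns0 i) ⟨i, Or.inl ⟨rfl, rfl⟩⟩ (Or.inr ⟨i, Or.inr ⟨rfl, Or.inr (Or.inl ⟨hi, rfl⟩)⟩⟩)
  have pN : ∀ e i, e i ≠ some false → pp (G (i, 0)) (tl e) (G (i, 0)) := by
    intro e i hi
    rcases he : e i with _ | _ | _
    · exact p1 e _ _ (ns0 i) (Or.inr ⟨i, Or.inr ⟨rfl, Or.inl ⟨he, rfl⟩⟩⟩)
    · exact absurd he hi
    · exact (pT e i he).pp
  have t3 : ∀ e c b, pp c (tl e) b → h b ≤ h c := by
    intro e c b hp
    rcases t1 e c b hp with ⟨rfl, -⟩ | ⟨i, rfl, rfl | rfl | rfl⟩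
    · exact le_rfl
    · exact (g2 i).le
    · exact (g3 i).le
    · exact (g0 i).le
  refine ⟨ρ ++ (relL K ++ arcs l),
    fun e a b => ∃ a' b', a = some a' ∧ b = some b' ∧ R e a' b', fun e => ?_⟩
  have ee : ρ ++ (relL K ++ arcs l) ++
      [fun a b => ∃ a' b', a = some a' ∧ b = some b' ∧ R e a' b'] = ρ ++ tl e := by
    simp only [tl, List.append_assoc]; rfl
  rw [ee]
  have f1 : ∀ a b, pp a (ρ ++ tl e) b → h b ≤ h a := by
    intro a b hp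
    obtain ⟨c, h1, h2⟩ := cρ.pp_app hp
    exact (t3 e _ _ h2).trans ((r1 _ _).1 h1)
  have f2 : ∀ a b, pa a (ρ ++ tl e) b → h b < h a ∨ ∃ i, a = G (i, 0) ∧ b = G (i, 0) ∧
      e i = some true := by
    intro a b hp
    obtain ⟨c, ⟨h1, h2⟩ | ⟨h1, h2⟩⟩ := cρ.pa_app hp
    · exact Or.inl ((t3 e _ _ h2).trans_lt ((r2 _ _).1 h1))
    · have h3 := (r1 _ _).1 h1
      obtain ⟨i, rfl, ⟨rfl, h4⟩ | rfl⟩ := t2 e _ _ h2
      · rcases h3.lt_or_eq with h3 | h3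
        · exact Or.inl h3
        · exact Or.inr ⟨i, gs i a h3.symm, rfl, h4⟩
      · exact Or.inl ((g0 i).trans_le h3)
  refine ⟨⟨cρ.app (ctl e), fun w hw b hb => ?_, fun a b hp w _ => ?_, fun a b hp ha => ?_⟩, f1, f2,
    fun i => ⟨fun hp => ?_, fun hi => pp_of ((r1 _ _).2 le_rfl) (pN e i hi)⟩,
    fun i hi => pa_of2 ((r1 _ _).2 le_rfl) (pT e i hi)⟩
  · obtain ⟨a, rfl⟩ := hN hw
    have key : ∀ c, h c = h b → pp c (tl e) b → ∃ a', h a' = h a ∧ pp a' (ρ ++ tl e) b ∧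
        (h b < h a → pa a' (ρ ++ tl e) b) := fun c h1 h2 =>
      ⟨a, rfl, pp_of ((r1 _ _).2 (by rwa [h1])) h2, fun h3 => pa_of1 ((r2 _ _).2 (by rwa [h1])) h2⟩
    by_cases hy : ∃ i, b = G (i, 0)
    · obtain ⟨i, rfl⟩ := hy
      by_cases he : e i = some false
      · have := pa_of2 ((r1 _ _).2 (gw i _ hw hb)) (p2 e _ _ _ (ns1 i) ⟨i, Or.inr ⟨rfl, rfl⟩⟩
          (Or.inr ⟨i, Or.inr ⟨rfl, Or.inr (Or.inr ⟨he, rfl⟩)⟩⟩))
        exact ⟨a, rfl, this.pp, fun _ => this⟩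
      · exact key _ rfl (pN e i he)
    · by_cases hsp : sp b
      · obtain ⟨i, rfl | rfl⟩ := hsp
        · exact key _ (g2 i).symm (p1 e _ _ (ns1 i) (Or.inr ⟨i, Or.inl ⟨rfl, Or.inl rfl⟩⟩))
        · exact key _ (g3 i).symm (p1 e _ _ (ns1 i) (Or.inr ⟨i, Or.inl ⟨rfl, Or.inr rfl⟩⟩))
      · exact key _ rfl (p1 e _ _ hsp (Or.inl ⟨rfl, hsp, fun i hi => hy ⟨i, hi⟩⟩))
  · exact ⟨(f1 a b hp).trans, (f1 a b hp).trans_lt⟩
  · rcases f2 a b hp with h1 | ⟨i, rfl, -, -⟩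
    · exact h1
    · exact absurd ha (gN i)
  · obtain ⟨c, h1, h2⟩ := cρ.pp_app hp
    rcases t1 e _ _ h2 with ⟨-, h3⟩ | ⟨j, rfl, h3 | h3 | h3⟩
    · exact h3 i rfl
    · simp [hG'] at h3
    · simp [hG'] at h3
    · obtain rfl : i = j := by simpa [hG'] using h3
      exact absurd ((r1 _ _).1 h1) (not_le.2 (g0 i))

theorem gadget {P κ Q : Type} [Finite P] [Finite κ] [Finite Q] {δ : Q → Lt P → Q} {q0 : Q}
    {Acc : Set Q → Prop} (hA : ∀ w, Acc (InfS (run δ q0 w)) ↔ (B0 P).Accepts w)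
    (h : P → ℚ) (N : Set ℚ)
    (hN : N ⊆ Set.range h) (G : κ × Fin 4 → P) (hG : Function.Injective G)
    (g2 : ∀ i, h (G (i, 2)) = h (G (i, 1))) (g3 : ∀ i, h (G (i, 3)) = h (G (i, 1)))
    (g0 : ∀ i, h (G (i, 0)) < h (G (i, 1))) (gN : ∀ i, h (G (i, 0)) ∉ N)
    (gw : ∀ i, ∀ w ∈ N, h (G (i, 0)) ≤ w → h (G (i, 1)) ≤ w)
    (gs : ∀ i a, h a = h (G (i, 0)) → a = G (i, 0)) (S : Set Q) (hne : S.Nonempty)
    (hS : ∀ q ∈ S, Rch δ q0 q ∧ ∀ x, Mor N h x h → dst δ q x ∈ S) :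
    3 ^ Nat.card κ ≤ S.ncard ^ 2 := by
  classical
  have := Fintype.ofFinite κ
  obtain ⟨r, c, hm⟩ := exists_mac h N hN G hG g2 g3 g0 gN gw gs
  let δ' : Q → (κ → Option Bool) → Q := fun q e => dst δ q (r ++ [c e])
  let M : List (κ → Option Bool) → List (Lt P) := fun es => es.flatMap fun e => r ++ [c e]
  have Mc : ∀ e es, M (e :: es) = (r ++ [c e]) ++ M es := fun e es => List.flatMap_cons
  have m1 : ∀ es q, dst δ q (M es) = dst δ' q es := by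
    intro es
    induction es with
    | nil => intro q; rfl
    | cons e es ih => intro q; rw [Mc, dst_app, ih]; rfl
  have m2 : ∀ es q, vis δ q (M es) = ⋃ p ∈ vis δ' q es, vis δ p r ∪ {dst δ p r} := by
    intro es
    induction es with
    | nil => intro q; simp [M, vis]
    | cons e es ih =>
      intro q
      rw [Mc, vis_app, ih, vis_app]
      simp only [vis, Set.biUnion_insert, insert_empty_eq]
      rfl
  have m3 : ∀ es, Clean (M es) := by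
    intro es
    induction es with
    | nil => exact clean_nil
    | cons e es ih => rw [Mc]; exact (hm e).1.clean.app ih
  have m4 : ∀ es a b, (pp a (M es) b → h b ≤ h a) ∧
      (∀ i, pp (G (i, 0)) (M es) (G (i, 0)) ↔ ∀ e ∈ es, e i ≠ some false) := by
    intro es
    induction es with
    | nil => intro a b; exact ⟨fun hp => by rw [(pp_nil _ _).1 hp], fun i => by simp [M, pp_nil]⟩
    | cons e es ih =>
      intro a b
      rw [Mc]
      refine ⟨fun hp => ?_, fun i => ⟨fun hp => ?_, fun hp => ?_⟩⟩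
      · obtain ⟨d, h1, h2⟩ := (hm e).1.clean.pp_app hp
        exact ((ih _ _).1 h2).trans ((hm e).2.1 _ _ h1)
      · obtain ⟨d, h1, h2⟩ := (hm e).1.clean.pp_app hp
        obtain rfl := gs i d (((hm e).2.1 _ _ h1).antisymm ((ih _ _).1 h2))
        simp only [List.mem_cons, forall_eq_or_imp]
        exact ⟨((hm e).2.2.2.1 i).1 h1, ((ih a b).2 i).1 h2⟩
      · simp only [List.mem_cons, forall_eq_or_imp] at hp
        exact pp_of (((hm e).2.2.2.1 i).2 hp.1) (((ih a b).2 i).2 hp.2)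
  have m5 : ∀ es a b, pa a (M es) b → h b < h a ∨ ∃ i, a = G (i, 0) ∧ b = G (i, 0) ∧
      ∃ e ∈ es, e i = some true := by
    intro es
    induction es with
    | nil => intro a b hp; exact hp.elim
    | cons e es ih =>
      intro a b hp
      rw [Mc] at hp
      obtain ⟨d, ⟨h1, h2⟩ | ⟨h1, h2⟩⟩ := (hm e).1.clean.pa_app hp
      · have h3 := (m4 es _ _).1 h2
        rcases (hm e).2.2.1 _ _ h1 with h4 | ⟨i, rfl, rfl, h4⟩
        · exact Or.inl (h3.trans_lt h4)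
        · rcases h3.lt_or_eq with h3 | h3
          · exact Or.inl h3
          · exact Or.inr ⟨i, rfl, gs i b h3, e, List.mem_cons_self, h4⟩
      · have h3 := (hm e).2.1 _ _ h1
        rcases ih _ _ h2 with h4 | ⟨i, rfl, rfl, e', h4, h5⟩
        · exact Or.inl (h4.trans_le h3)
        · rcases h3.lt_or_eq with h3 | h3
          · exact Or.inl h3
          · exact Or.inr ⟨i, gs i a h3.symm, rfl, e', List.mem_cons_of_mem _ h4, h5⟩
  have m6 : ∀ es i, (∃ e ∈ es, e i = some true) → (∀ e ∈ es, e i ≠ some false) →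
      pa (G (i, 0)) (M es) (G (i, 0)) := by
    intro es i
    induction es with
    | nil => simp
    | cons e es ih =>
      rintro ⟨e', h1, h2⟩ h3
      simp only [List.mem_cons, forall_eq_or_imp] at h3
      rw [Mc]
      rcases List.mem_cons.1 h1 with rfl | h1
      · exact pa_of1 ((hm e').2.2.2.2 i h2) (((m4 es (G (i, 0)) (G (i, 0))).2 i).2 h3.2)
      · exact pa_of2 (((hm e).2.2.2.1 i).2 h3.1) (ih ⟨e', h1, h2⟩ h3.2)
  refine pairs_bound δ' S ?_ _ Finset.univ S (by simp) le_rfl hne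
    (fun q hq e _ => (hS q hq).2 _ (hm e).1)
  rintro q hq es es' h1 h2 h3 h4 ⟨i, h5, h6⟩
  by_contra hc
  refine clash hA (hS q hq).1 (x := M es) (y := M es') (by rw [m1, h1]) (by rw [m1, h2])
    (by rw [m2, m2, h3]) ?_ (m6 es i h5 h6) (m3 es') h (fun a b => (m4 es' a b).1) fun a b hp => ?_
  · rcases es' with _ | ⟨e, es'⟩
    · exact absurd rfl h4
    · rw [Mc]; simp
  · rcases m5 es' a b hp with h7 | ⟨j, rfl, rfl, h7⟩
    · exact h7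
    · exact absurd ⟨j, h7, ((m4 es' (G (j, 0)) (G (j, 0))).2 j).1 hp.pp⟩ hc

end Pool.Agent.MP_0f075e_lc
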