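import Pool.Agent.MP_0f075e_lc.Gadget
import Pool.Agent.MP_0f075e_lc.Count

/-! The lower bound: one component per tree, `sqrt 3` to the number of sites states each. -/

namespace Pool.Agent.MP_0f075e_lc

open Finset

@[ext] structure TT (P : Type) where
  h : P → Nm
  closed : ∀ a p, p <+: h a → ∃ a', h a' = p
  root : ∀ a, Anc [] (h a)

section
variable {P : Type}

def TT.toHT (T : TT P) : HT P where
  h a := some (T.h a)
  closed := by
    intro a v p h hp
    obtain rfl := Option.some.inj h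
    obtain ⟨a', ha'⟩ := T.closed a p hp
    exact ⟨a', by rw [ha']⟩
  root := by
    intro a v h
    obtain rfl := Option.some.inj h
    exact T.root a

instance [Finite P] : Finite (TT P) :=
  Finite.of_injective TT.toHT fun T T' h => by
    ext1; funext a
    exact Option.some.inj (congrFun (congrArg HT.h h) a)

def Site (T : TT P) (u : Nm) : Prop :=
  {a | T.h a = u}.ncard = 3 ∧ {a | u ++ [false] <+: T.h a}.ncard = 1

def NN (T : TT P) (i : ℕ) : Set Nm :=
  {v | (∃ a, T.h a = v) ∧ v.length ≤ i ∧ ¬ ∃ u, v = u ++ [false] ∧ Site T u}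

lemma Site.fn {T : TT P} {u : Nm} (h : Site T u) : ∃ f : Fin 4 → P, Function.Injective f ∧
    T.h (f 0) = u ++ [false] ∧ (∀ a, u ++ [false] <+: T.h a → a = f 0) ∧
    (∀ k, k ≠ 0 → T.h (f k) = u) ∧ ∀ a, T.h a = u → ∃ k, f k = a := by
  obtain ⟨x, y, z, h1, h2, h3, h4⟩ := Set.ncard_eq_three.1 h.1
  obtain ⟨c, h5⟩ := Set.ncard_eq_one.1 h.2
  have h6 : ∀ a, u ++ [false] <+: T.h a ↔ a = c := fun a => by
    simpa using Set.ext_iff.1 h5 a
  have h7 : ∀ a, T.h a = u ↔ a = x ∨ a = y ∨ a = z := fun a => by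
    simpa using Set.ext_iff.1 h4 a
  have hc : T.h c = u ++ [false] := by
    obtain ⟨a, ha⟩ := T.closed c _ ((h6 c).2 rfl)
    rw [← (h6 a).1 (by rw [ha]), ha]
  have hx := (h7 x).2 (by simp)
  have hy := (h7 y).2 (by simp)
  have hz := (h7 z).2 (by simp)
  have n : ∀ a, T.h a = u → c ≠ a := by
    rintro a ha rfl
    rw [hc] at ha; simp at ha
  have n1 := n x hx
  have n2 := n y hy
  have n3 := n z hz
  refine ⟨![c, x, y, z], ?_, hc, fun a ha => (h6 a).1 ha, fun k hk => ?_, fun a ha => ?_⟩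
  · intro i j hij
    fin_cases i <;> fin_cases j <;> simp_all [eq_comm]
  · fin_cases k <;> simp_all
  · rcases (h7 a).1 ha with rfl | rfl | rfl
    exacts [⟨1, rfl⟩, ⟨2, rfl⟩, ⟨3, rfl⟩]

lemma NN_pre {T : TT P} {a : P} {p : Nm} {i : ℕ} (hp : p <+: T.h a) (hne : p ≠ T.h a)
    (hi : p.length ≤ i) : p ∈ NN T i := by
  refine ⟨T.closed a p hp, hi, ?_⟩
  rintro ⟨u, rfl, hs⟩
  obtain ⟨f, -, h1, h2, -⟩ := hs.fn
  rw [h2 a hp] at hne
  exact hne h1.symm

lemma agree_pre {T T' : TT P} {i : ℕ} (ag : Agree (val '' NN T i) (fun a => val (T.h a))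
    (fun a => val (T'.h a))) {v : Nm} (hv : ∀ p, p <+: v → p ≠ v → p ∈ NN T i) (a : P) :
    v <+: T.h a ↔ v <+: T'.h a :=
  ⟨cut_lemma v _ _ fun p hp hne => ag a _ ⟨p, hv p hp hne, rfl⟩,
   cut_lemma v _ _ fun p hp hne => ⟨(ag a _ ⟨p, hv p hp hne, rfl⟩).1.symm,
    (ag a _ ⟨p, hv p hp hne, rfl⟩).2.symm⟩⟩

lemma agree_eq {T T' : TT P} {i : ℕ} (ag : Agree (val '' NN T i) (fun a => val (T.h a))
    (fun a => val (T'.h a))) {v : Nm} (hv : v ∈ NN T i) (a : P) : T.h a = v ↔ T'.h a = v := by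
  obtain ⟨h1, h2⟩ := ag a _ ⟨v, hv, rfl⟩
  simp only at h1 h2
  rw [← val_inj.eq_iff, ← val_inj.eq_iff (a := T'.h a), eq_iff_le_not_lt, eq_iff_le_not_lt, h1, h2]

lemma Agree.symm {N : Set ℚ} {h h' : P → ℚ} (ag : Agree N h h') : Agree N h' h :=
  fun a w hw => ⟨(ag a w hw).1.symm, (ag a w hw).2.symm⟩

lemma NN_step {T T' : TT P} {i : ℕ} (e : NN T i = NN T' i)
    (ag : Agree (val '' NN T i) (fun a => val (T.h a)) (fun a => val (T'.h a))) :
    NN T (i + 1) ⊆ NN T' (i + 1) := by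
  rintro v ⟨⟨a, rfl⟩, h2, h3⟩
  have hv : ∀ p, p <+: T.h a → p ≠ T.h a → p ∈ NN T i := fun p hp hne =>
    NN_pre hp hne (by
      have := hp.length_le
      have h4 : p.length ≠ (T.h a).length := fun h => hne (hp.eq_of_length h)
      omega)
  have _ := e
  refine ⟨T'.closed a _ ((agree_pre ag hv a).1 (List.prefix_refl _)), h2, ?_⟩
  rintro ⟨u, hu, hs⟩
  refine h3 ⟨u, hu, ?_⟩
  have hu' : u ∈ NN T i := hv u (by rw [hu]; exact List.prefix_append _ _) (by rw [hu]; simp)
  unfold Site at hs ⊢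
  simp only [agree_eq ag hu', ← hu, agree_pre ag hv]
  rw [hu]; exact hs

lemma NN_fin [Finite P] {T T' : TT P} (e : NN T (Nat.card P) = NN T' (Nat.card P))
    (ag : Agree (val '' NN T (Nat.card P)) (fun a => val (T.h a)) (fun a => val (T'.h a))) :
    T = T' := by
  have key : ∀ (T T' : TT P), Agree (val '' NN T (Nat.card P)) (fun a => val (T.h a))
      (fun a => val (T'.h a)) → ∀ a, T.h a <+: T'.h a := by
    intro T T' ag a
    refine (agree_pre ag (fun p hp hne => NN_pre hp hne ?_) a).1 (List.prefix_refl _)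
    exact hp.length_le.trans (length_lt_card _ T.toHT.closed (a := a) rfl).le
  ext1; funext a
  exact (key T T' ag a).eq_of_length_le (key T' T (by rw [← e]; exact ag.symm) a).length_le

instance (T : TT P) [Finite P] : Finite {u // Site T u} := by
  have : ∀ u : {u // Site T u}, ∃ a, T.h a = u := fun u => by
    obtain ⟨f, -, -, -, h, -⟩ := u.2.fn
    exact ⟨f 1, h 1 (by decide)⟩
  choose f hf using this
  exact Finite.of_injective f fun u u' h => Subtype.ext (by rw [← hf, ← hf, h])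

theorem lower_sets [Finite P] [Nonempty P] {Q : Type} [Finite Q] {δ : Q → Lt P → Q} {q0 : Q}
    {Acc : Set Q → Prop} (hA : ∀ w, Acc (InfS (run δ q0 w)) ↔ (B0 P).Accepts w) :
    ∃ S : TT P → Set Q, (∀ T T', ∀ q ∈ S T, q ∈ S T' → T = T') ∧
      ∀ T, 3 ^ Nat.card {u // Site T u} ≤ (S T).ncard ^ 2 := by
  have hr : ∀ (T : TT P) i, val '' NN T i ⊆ Set.range (fun a => val (T.h a)) := by
    rintro T i _ ⟨v, ⟨⟨a, rfl⟩, -⟩, rfl⟩; exact ⟨a, rfl⟩
  obtain ⟨S, h1, h2⟩ := stages hA (fun (T : TT P) a => val (T.h a)) (fun T i => val '' NN T i)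
    (val []) (fun T a => (T.root a).le) (fun T => by
      have : NN T 0 = {[]} := by
        ext v
        constructor
        · intro h; simpa using h.2.1
        · rintro rfl
          exact ⟨T.closed (Classical.arbitrary P) _ List.nil_prefix, le_rfl, by simp⟩
      rw [this]; simp)
    (fun T i => Set.image_mono fun v hv => ⟨hv.1, hv.2.1.trans (by omega), hv.2.2⟩) hr
    (fun T T' i e ag => by
      have e' := Set.image_injective.2 val_inj e
      rw [(NN_step e' ag).antisymm (NN_step e'.symm (by rw [← e']; exact ag.symm))])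
    (Nat.card P) (fun T T' e ag => NN_fin (Set.image_injective.2 val_inj e) ag)
  refine ⟨S, h1, fun T => ?_⟩
  choose f f1 f2 f3 f4 _ using fun u : {u // Site T u} => u.2.fn
  refine gadget hA _ _ (hr T _) (fun x => f x.1 x.2) ?_ (fun u => ?_) (fun u => ?_) (fun u => ?_)
    (fun u => ?_) (fun u => ?_) (fun u a ha => ?_) (S T) (h2 T).1 (h2 T).2
  · rintro ⟨u, k⟩ ⟨u', k'⟩ h
    simp only at h
    have key : ∀ (u u' : {u // Site T u}) k', k' ≠ 0 → f u 0 ≠ f u' k' := by
      intro u u' k' hk h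
      have h3 : u'.1 = u.1 ++ [false] := by rw [← f4 u' k' hk, ← h, f2]
      have h4 := f3 u (f u' 1) (by rw [f4 u' 1 (by decide), h3])
      have h5 := f3 u (f u' 2) (by rw [f4 u' 2 (by decide), h3])
      exact absurd (f1 u' (h4.trans h5.symm)) (by decide)
    have : u = u' := by
      by_cases hk : k = 0 <;> by_cases hk' : k' = 0
      · subst hk hk'
        have := f2 u
        rw [h, f2] at this
        exact Subtype.ext (List.append_cancel_right this).symm
      · subst hk; exact absurd h (key u u' k' hk')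
      · subst hk'; exact absurd h.symm (key u' u k hk)
      · exact Subtype.ext (by rw [← f4 u k hk, h, f4 u' k' hk'])
    subst this
    rw [f1 u h]
  · simp only [f4 u 2 (by decide), f4 u 1 (by decide)]
  · simp only [f4 u 3 (by decide), f4 u 1 (by decide)]
  · simp only [f2, f4 u 1 (by decide)]
    exact val_lt_of_desc (List.prefix_refl _)
  · rintro ⟨v, hv, h⟩
    simp only [f2] at h
    exact hv.2.2 ⟨u, val_inj h, u.2⟩
  · rintro _ ⟨v, hv, rfl⟩ h
    simp only [f2, f4 u 1 (by decide)] at h ⊢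
    refine between _ _ h fun hc => ?_
    obtain ⟨a, rfl⟩ := hv.1
    exact hv.2.2 ⟨u, by rw [f3 u a hc, f2], u.2⟩
  · exact f3 u a (by rw [val_inj ha, f2])

lemma choose_le {k j x : ℕ} (h : 3 ^ k ≤ x ^ 2) : k.choose j ≤ 2 ^ j * x := by
  have h1 : 3 ^ k ≤ 2 ^ k * x := by
    refine (Nat.pow_le_pow_iff_left (two_ne_zero)).1 ?_
    calc (3 ^ k) ^ 2 = 3 ^ k * 3 ^ k := by ring
      _ ≤ 4 ^ k * x ^ 2 := Nat.mul_le_mul (Nat.pow_le_pow_left (by norm_num) _) h
      _ = _ := by rw [mul_pow, ← pow_mul, mul_comm k 2, pow_mul]; norm_num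
  rcases le_or_gt j k with hj | hj
  · have h2 : 1 ^ j * 2 ^ (k - j) * k.choose j ≤ (1 + 2) ^ k := by
      rw [add_pow]
      exact single_le_sum (f := fun m => 1 ^ m * 2 ^ (k - m) * (k.choose m : ℕ))
        (fun _ _ => Nat.zero_le _) (mem_range.2 (by omega))
    have h3 : 2 ^ k = 2 ^ (k - j) * 2 ^ j := by rw [← pow_add]; congr 1; omega
    rw [h3, mul_assoc] at h1
    exact Nat.le_of_mul_le_mul_left (by simpa using h2.trans h1) (by positivity : 0 < 2 ^ (k - j))
  · rw [Nat.choose_eq_zero_of_lt hj]; exact Nat.zero_le _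

theorem lower_sum [Finite P] [Nonempty P] {Q : Type} [Finite Q] {δ : Q → Lt P → Q} {q0 : Q}
    {Acc : Set Q → Prop} (hA : ∀ w, Acc (InfS (run δ q0 w)) ↔ (B0 P).Accepts w) (j : ℕ) :
    Nat.card (Σ T : TT P, (Fin j ↪ {u // Site T u}) × (Fin j × Fin 4 → Fin 4)) ≤
      j.factorial * 512 ^ j * Nat.card Q := by
  classical
  obtain ⟨S, h1, h2⟩ := lower_sets hA
  have := Fintype.ofFinite (TT P)
  have h3 : ∑ T, (S T).ncard ≤ Nat.card Q := by
    have := Nat.card_le_card_of_injective (fun x : Σ T, S T => (x.2 : Q)) (by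
      rintro ⟨T, q, hq⟩ ⟨T', q', hq'⟩ h
      obtain rfl : q = q' := h
      obtain rfl := h1 T T' q hq hq'
      rfl)
    rwa [Nat.card_sigma] at this
  rw [Nat.card_sigma]
  refine le_trans (sum_le_sum fun T _ => ?_) (by rw [← mul_sum]; exact Nat.mul_le_mul_left _ h3)
  have := Fintype.ofFinite {u // Site T u}
  have h4 := choose_le (j := j) (h2 T)
  simp only [Nat.card_eq_fintype_card, Fintype.card_prod, Fintype.card_embedding_eq,
    Fintype.card_fin, Fintype.card_fun, Nat.descFactorial_eq_factorial_mul_choose] at h4 ⊢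
  calc _ ≤ j.factorial * (2 ^ j * (S T).ncard) * 4 ^ (j * 4) := by gcongr
    _ = _ := by rw [mul_comm j 4, pow_mul, show 512 = 2 * 4 ^ 4 by norm_num, mul_pow]; ring

end

/-- Free positions next to a finite set of names. -/
def slots (N : Finset Nm) : Finset Nm :=
  ((N ×ˢ (univ : Finset Bool)).image fun x => x.1 ++ [x.2]) \ insert [true] N

lemma card_slots (N : Finset Nm) : N.card ≤ (slots N).card + 1 := by
  have h1 := le_card_sdiff (insert [true] N) ((N ×ˢ (univ : Finset Bool)).image fun x => x.1 ++ [x.2])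
  rw [card_image_of_injective _ (by
    rintro ⟨a, b⟩ ⟨c, d⟩ h
    simpa using List.append_inj' h rfl)] at h1
  have h2 := card_insert_le [true] N
  simp only [card_product, card_univ, Fintype.card_bool] at h1
  unfold slots; omega

lemma insert_sites {P : Type} {j n : ℕ} (φ : P ≃ (Fin j × Fin 4) ⊕ Fin n) (N : Finset Nm)
    (hc : ∀ v ∈ N, ∀ p, p <+: v → p ∈ N) (hr : ∀ v ∈ N, Anc [] v) (g : Fin n → Nm)
    (hg : ∀ v, v ∈ N ↔ ∃ i, g i = v) (σ : Fin j → Nm) (hσ : Function.Injective σ)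
    (hs : ∀ i, σ i ∈ slots N) : ∃ T : TT P, (∀ i, T.h (φ.symm (.inr i)) = g i) ∧
      ∀ i, Site T (σ i) ∧ ∀ r, T.h (φ.symm (.inl (i, r))) = σ i ∨
        T.h (φ.symm (.inl (i, r))) = σ i ++ [false] := by
  have s1 : ∀ i, σ i ∉ N := fun i h => by have := hs i; simp [slots, h] at this
  have s2 : ∀ i, ∃ p ∈ N, ∃ b, σ i = p ++ [b] := fun i => by
    have := (mem_sdiff.1 (hs i)).1
    obtain ⟨⟨p, b⟩, h1, h2⟩ := mem_image.1 this
    exact ⟨p, (mem_product.1 h1).1, b, h2.symm⟩
  have s3 : ∀ i, Anc [] (σ i) := fun i => by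
    obtain ⟨p, hp, b, h⟩ := s2 i
    have h1 : σ i ≠ [true] := fun h => by have := hs i; simp [slots, h] at this
    rw [anc_nil_iff]
    rcases (anc_nil_iff p).1 (hr p hp) with rfl | ⟨y, rfl⟩
    · cases b
      · right; exact ⟨[], h⟩
      · exact absurd h h1
    · right; exact ⟨_, h⟩
  have s4 : ∀ i p, p <+: σ i → p = σ i ∨ p ∈ N := fun i p hp => by
    obtain ⟨q, hq, b, h⟩ := s2 i
    rw [h] at hp ⊢
    rcases List.prefix_concat_iff.1 hp with h1 | h1
    · exact Or.inl h1
    · exact Or.inr (hc q hq p h1)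
  have s5 : ∀ i i', ¬ σ i ++ [false] <+: σ i' := fun i i' h => by
    rcases s4 i' _ ((List.prefix_append _ _).trans h) with h1 | h1
    · rw [h1] at h; simpa using h.length_le
    · exact s1 i h1
  let k : (Fin j × Fin 4) ⊕ Fin n → Nm :=
    Sum.elim (fun x => if x.2 = 0 then σ x.1 ++ [false] else σ x.1) g
  have inN : ∀ p ∈ N, ∃ a, k (φ a) = p := fun p hp => by
    obtain ⟨i, rfl⟩ := (hg p).1 hp
    exact ⟨φ.symm (.inr i), by simp [k]⟩
  have inS : ∀ i p, p <+: σ i → ∃ a, k (φ a) = p := fun i p hp => by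
    rcases s4 i p hp with rfl | h
    · exact ⟨φ.symm (.inl (i, 1)), by simp [k]⟩
    · exact inN p h
  refine ⟨⟨fun a => k (φ a), fun a p hp => ?_, fun a => ?_⟩, fun i => by simp [k], fun i =>
    ⟨⟨?_, ?_⟩, fun r => ?_⟩⟩
  · rcases hφ : φ a with ⟨i, r⟩ | i <;> rw [hφ] at hp
    · by_cases h0 : r = 0
      · simp only [k, Sum.elim_inl, h0, if_true] at hp
        rcases List.prefix_concat_iff.1 hp with rfl | h1
        · exact ⟨φ.symm (.inl (i, 0)), by simp [k]⟩
        · exact inS i p h1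
      · simp only [k, Sum.elim_inl, h0, if_false] at hp
        exact inS i p hp
    · exact inN p (hc _ ((hg _).2 ⟨i, rfl⟩) p hp)
  · rcases φ a with ⟨i, r⟩ | i
    · by_cases h0 : r = 0
      · simp only [k, Sum.elim_inl, h0, if_true]
        rw [anc_nil_iff]
        rcases (anc_nil_iff _).1 (s3 i) with h | ⟨y, h⟩ <;> simp [h]
      · simp only [k, Sum.elim_inl, h0, if_false]; exact s3 i
    · exact hr _ ((hg _).2 ⟨i, rfl⟩)
  · rw [Set.ncard_eq_three]
    refine ⟨φ.symm (.inl (i, 1)), φ.symm (.inl (i, 2)), φ.symm (.inl (i, 3)), by simp, by simp,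
      by simp, ?_⟩
    ext a
    simp only [Set.mem_ofPred_eq, Set.mem_insert_iff, Set.mem_singleton_iff, Equiv.eq_symm_apply]
    rcases φ a with ⟨i', r⟩ | i'
    · by_cases h0 : r = 0
      · subst h0
        simp only [k, Sum.elim_inl, if_true]
        exact ⟨fun h => absurd (by rw [h]) (s5 i' i), by simp⟩
      · simp only [k, Sum.elim_inl, h0, if_false, hσ.eq_iff]
        fin_cases r <;> simp_all
    · simp only [k, Sum.elim_inr]
      exact ⟨fun h => absurd ((hg _).2 ⟨i', h⟩) (s1 i), by simp⟩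
  · rw [Set.ncard_eq_one]
    refine ⟨φ.symm (.inl (i, 0)), ?_⟩
    ext a
    simp only [Set.mem_ofPred_eq, Set.mem_singleton_iff, Equiv.eq_symm_apply]
    rcases φ a with ⟨i', r⟩ | i'
    · by_cases h0 : r = 0
      · subst h0
        simp only [k, Sum.elim_inl, if_true]
        constructor
        · intro h
          rcases List.prefix_concat_iff.1 h with h1 | h1
          · rw [hσ (List.append_cancel_right h1)]
          · exact absurd h1 (s5 i i')
        · intro h
          obtain rfl : i' = i := by simpa using h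
          exact List.prefix_refl _
      · simp only [k, Sum.elim_inl, h0, if_false]
        exact ⟨fun h => absurd h (s5 i i'), by simp [h0]⟩
    · simp only [k, Sum.elim_inr]
      exact ⟨fun h => absurd (hc _ ((hg _).2 ⟨i', rfl⟩) _ ((List.prefix_append _ _).trans h)) (s1 i),
        by simp⟩
  · by_cases h0 : r = 0 <;> simp [k, h0]

theorem data_le (n j m : ℕ) :
    (n + 4 * j).descFactorial (4 * j) * (catalan m * (SS n (m + 1) * m.descFactorial j)) ≤
      Nat.card (Σ T : TT (Fin (n + 4 * j)), (Fin j ↪ {u // Site T u}) × (Fin j × Fin 4 → Fin 4)) := by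
  classical
  let P := Fin (n + 4 * j)
  let nm : BinaryTree.treesOfNumNodesEq m → Finset Nm := fun t => names (.node () t.1 .nil)
  have hnm : ∀ t, (nm t).card = m + 1 := fun t => by
    have := BinaryTree.mem_treesOfNumNodesEq.1 t.2
    simp [nm, card_names, this]
  let D := (Fin j × Fin 4 ↪ P) × Σ t : BinaryTree.treesOfNumNodesEq m,
    {f : Fin n → nm t // Function.Surjective f} × (Fin j ↪ slots (nm t))
  have hD : (n + 4 * j).descFactorial (4 * j) *
      (catalan m * (SS n (m + 1) * m.descFactorial j)) ≤ Nat.card D := by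
    rw [Nat.card_prod, Nat.card_sigma]
    refine Nat.mul_le_mul (by simp [P, mul_comm]) ?_
    rw [← BinaryTree.treesOfNumNodesEq_card_eq_catalan, ← Fintype.card_coe, ← card_univ,
      ← smul_eq_mul]
    refine card_nsmul_le_sum _ _ _ fun t _ => ?_
    rw [Nat.card_prod]
    refine Nat.mul_le_mul ?_ ?_
    · have := Sj_eq (Fin n) (nm t)
      simp only [Nat.card_eq_fintype_card, Fintype.card_fin, Fintype.card_coe, hnm] at this
      exact this.ge
    · have := card_slots (nm t)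
      rw [hnm] at this
      simpa using Nat.descFactorial_le j (by omega : m ≤ (slots (nm t)).card)
  refine hD.trans ?_
  have hφ : ∀ e : Fin j × Fin 4 ↪ P, ∃ φ : P ≃ (Fin j × Fin 4) ⊕ Fin n,
      ∀ x, φ.symm (.inl x) = e x := by
    intro e
    have hc : Fintype.card {a : P // ¬ a ∈ Set.range e} = n := by
      rw [Fintype.card_subtype_compl, Set.card_range_of_injective e.injective]
      simp [P]; omega
    exact ⟨(Equiv.sumCompl (· ∈ Set.range e)).symm.trans
      (Equiv.sumCongr (Equiv.ofInjective e e.injective).symm (Fintype.equivFinOfCardEq hc)),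
      fun x => by simp⟩
  choose φ hφ using hφ
  choose F _ F2 F3 _ F5 using fun (T : TT P) (u : {u // Site T u}) => u.2.fn
  have key : ∀ d : D, ∃ z : Σ T : TT P, (Fin j ↪ {u // Site T u}) × (Fin j × Fin 4 → Fin 4),
      (∀ i, z.1.h ((φ d.1).symm (.inr i)) = d.2.2.1.1 i) ∧ (∀ i, (z.2.1 i).1 = d.2.2.2 i) ∧
      ∀ x, F z.1 (z.2.1 x.1) (z.2.2 x) = d.1 x := by
    rintro ⟨e, t, ⟨f, hf⟩, σ⟩
    obtain ⟨T, h1, h2⟩ := insert_sites (φ e) (nm t) (names_closed _) (fun v hv => by
        rw [anc_nil_iff]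
        rcases (mem_names_node _ _ _).1 hv with rfl | ⟨x, -, rfl⟩ | ⟨x, hx, -⟩
        · left; rfl
        · right; exact ⟨x, rfl⟩
        · simp [names] at hx) (fun i => f i)
      (fun v => ⟨fun hv => by obtain ⟨i, hi⟩ := hf ⟨v, hv⟩; exact ⟨i, by rw [hi]⟩,
        by rintro ⟨i, rfl⟩; exact (f i).2⟩) (fun i => σ i)
      (fun i i' h => σ.injective (Subtype.ext h)) (fun i => (σ i).2)
    have h3 : ∀ x : Fin j × Fin 4, ∃ c, F T ⟨σ x.1, (h2 x.1).1⟩ c = e x := by
      rintro ⟨i, r⟩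
      rcases (h2 i).2 r with h4 | h4 <;> rw [hφ] at h4
      · exact F5 T ⟨σ i, (h2 i).1⟩ _ h4
      · exact ⟨0, (F3 T ⟨σ i, (h2 i).1⟩ _ (by rw [h4])).symm⟩
    choose c hc using h3
    exact ⟨⟨T, ⟨fun i => ⟨σ i, (h2 i).1⟩, fun i i' h =>
      σ.injective (Subtype.ext (Subtype.mk.inj h))⟩, c⟩, h1, fun i => rfl, hc⟩
  choose z z1 z2 z3 using key
  refine Nat.card_le_card_of_injective z ?_
  rintro ⟨e, t, ⟨f, hf⟩, σ⟩ ⟨e', t', ⟨f', hf'⟩, σ'⟩ h
  obtain rfl : e = e' := by
    ext1 x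
    have h1 := z3 ⟨e, t, ⟨f, hf⟩, σ⟩ x
    rw [h, z3] at h1
    exact h1.symm
  have h1 : ∀ i, (f i).1 = (f' i).1 := fun i => by
    have h1 := z1 ⟨e, t, ⟨f, hf⟩, σ⟩ i
    rw [h] at h1
    exact h1.symm.trans (z1 ⟨e, t', ⟨f', hf'⟩, σ'⟩ i)
  have h2 : ∀ i, (σ i).1 = (σ' i).1 := fun i => by
    have h1 := z2 ⟨e, t, ⟨f, hf⟩, σ⟩ i
    rw [h] at h1
    exact h1.symm.trans (z2 ⟨e, t', ⟨f', hf'⟩, σ'⟩ i)
  obtain rfl : t = t' := by
    have : nm t = nm t' := by
      ext v
      constructor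
      · intro hv
        obtain ⟨i, hi⟩ := hf ⟨v, hv⟩
        have := (f' i).2
        rwa [← h1, hi] at this
      · intro hv
        obtain ⟨i, hi⟩ := hf' ⟨v, hv⟩
        have := (f i).2
        rwa [h1, hi] at this
    have := names_inj this
    exact Subtype.ext (by simpa using this)
  obtain rfl : f = f' := funext fun i => Subtype.ext (h1 i)
  obtain rfl : σ = σ' := by ext1 i; exact Subtype.ext (h2 i)
  rfl

end Pool.Agent.MP_0f075e_lc
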