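import Pool.Agent.MP_0f075e_lc.Pairs

/-! The full Buchi automaton with one accepting state, and nested bottom components. -/

namespace Pool.Agent.MP_0f075e_lc

abbrev Lt (P : Type) := Option P → Option P → Prop

def B0 (P : Type) : NBA (Lt P) (Option P) := ⟨none, fun a c b => c a b, {none}⟩

section
variable {P : Type}

def pp (a : P) (x : List (Lt P)) (b : P) : Prop := Pth (B0 P) (some a) x (some b)
def pa (a : P) (x : List (Lt P)) (b : P) : Prop := PA (B0 P) (some a) x (some b)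
def Clean (x : List (Lt P)) : Prop := ∀ a c, Pth (B0 P) (some a) x c → ∃ b, c = some b

lemma pa.pp {a b : P} {x : List (Lt P)} (h : pa a x b) : pp a x b := PA.pth h

lemma Clean.app {x y : List (Lt P)} (hx : Clean x) (hy : Clean y) : Clean (x ++ y) := by
  intro a c h
  obtain ⟨d, h1, h2⟩ := (pth_app _ _ _ _ _).1 h
  obtain ⟨b, rfl⟩ := hx a d h1
  exact hy b c h2

lemma clean_nil : Clean ([] : List (Lt P)) := fun a _ h => ⟨a, h.symm⟩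

lemma pp_nil (a b : P) : pp a [] b ↔ a = b := by simp [pp, Pth]
lemma pa_nil (a b : P) : ¬ pa a [] b := fun h => h

lemma pp_of {x y : List (Lt P)} {a b c : P} (h1 : pp a x c) (h2 : pp c y b) : pp a (x ++ y) b :=
  (pth_app _ _ _ _ _).2 ⟨_, h1, h2⟩
lemma pa_of1 {x y : List (Lt P)} {a b c : P} (h1 : pa a x c) (h2 : pp c y b) : pa a (x ++ y) b :=
  (pa_app _ _ _ _ _).2 ⟨_, Or.inl ⟨h1, h2⟩⟩
lemma pa_of2 {x y : List (Lt P)} {a b c : P} (h1 : pp a x c) (h2 : pa c y b) : pa a (x ++ y) b :=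
  (pa_app _ _ _ _ _).2 ⟨_, Or.inr ⟨h1, h2⟩⟩

lemma Clean.pp_app {x y : List (Lt P)} (hx : Clean x) {a b : P} (h : pp a (x ++ y) b) :
    ∃ c, pp a x c ∧ pp c y b := by
  obtain ⟨d, h1, h2⟩ := (pth_app _ _ _ _ _).1 h
  obtain ⟨c, rfl⟩ := hx a d h1
  exact ⟨c, h1, h2⟩

lemma Clean.pa_app {x y : List (Lt P)} (hx : Clean x) {a b : P} (h : pa a (x ++ y) b) :
    ∃ c, (pa a x c ∧ pp c y b) ∨ (pp a x c ∧ pa c y b) := by
  obtain ⟨d, ⟨h1, h2⟩ | ⟨h1, h2⟩⟩ := (Pool.Agent.MP_0f075e_lc.pa_app _ _ _ _ _).1 h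
  · obtain ⟨c, rfl⟩ := hx a d h1.pth
    exact ⟨c, Or.inl ⟨h1, h2⟩⟩
  · obtain ⟨c, rfl⟩ := hx a d h1
    exact ⟨c, Or.inr ⟨h1, h2⟩⟩

def relL (R : P → P → Prop) : List (Lt P) :=
  [fun a b => ∃ a' b', a = some a' ∧ b = some b' ∧ R a' b']

lemma pp_rel (R : P → P → Prop) (a b : P) : pp a (relL R) b ↔ R a b := by
  simp [pp, relL, Pth, B0]
lemma pa_rel (R : P → P → Prop) (a b : P) : ¬ pa a (relL R) b := by
  simp [pa, relL, PA, B0]
lemma clean_rel (R : P → P → Prop) : Clean (relL R) := by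
  rintro a c ⟨d, ⟨a', b', -, rfl, -⟩, h⟩
  exact ⟨b', h.symm⟩

def arc (u v : P) : List (Lt P) :=
  [fun a b => (∃ p, a = some p ∧ b = some p) ∨ (a = some u ∧ b = none),
   fun a b => (∃ p, a = some p ∧ b = some p) ∨ (a = none ∧ b = some v)]

lemma pp_arc (u v a b : P) : pp a (arc u v) b ↔ a = b ∨ (a = u ∧ b = v) := by
  constructor
  · rintro ⟨d, h1, e, h2, h3⟩
    obtain rfl : e = some b := h3
    rcases h1 with ⟨p, h1, rfl⟩ | ⟨h1, rfl⟩ <;> rcases h2 with ⟨q, h2, h4⟩ | ⟨h2, h4⟩ <;> simp_all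
  · rintro (rfl | ⟨rfl, rfl⟩)
    · exact ⟨some a, Or.inl ⟨a, rfl, rfl⟩, some a, Or.inl ⟨a, rfl, rfl⟩, rfl⟩
    · exact ⟨none, Or.inr ⟨rfl, rfl⟩, some b, Or.inr ⟨rfl, rfl⟩, rfl⟩

lemma pa_arc (u v a b : P) : pa a (arc u v) b ↔ a = u ∧ b = v := by
  constructor
  · rintro ⟨d, h1, ⟨h2, -⟩ | ⟨e, h2, ⟨h3, h4⟩ | h3⟩⟩
    · simp [B0] at h2
    · obtain rfl : e = some b := h4
      obtain rfl : d = none := h3
      rcases h1 with ⟨p, h1, h5⟩ | ⟨h1, -⟩ <;> rcases h2 with ⟨q, h2, h4⟩ | ⟨h2, h4⟩ <;> simp_all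
    · exact h3.elim
  · rintro ⟨rfl, rfl⟩
    exact ⟨none, Or.inr ⟨rfl, rfl⟩, Or.inr ⟨some b, Or.inr ⟨rfl, rfl⟩, Or.inl ⟨rfl, rfl⟩⟩⟩

lemma clean_arc (u v : P) : Clean (arc u v) := by
  rintro a c ⟨d, -, e, h2, h3⟩
  obtain rfl : e = c := h3
  rcases h2 with ⟨q, -, h4⟩ | ⟨-, h4⟩ <;> exact ⟨_, h4⟩

def arcs : List (P × P) → List (Lt P)
  | [] => []
  | z :: l => arc z.1 z.2 ++ arcs l

lemma clean_arcs (l : List (P × P)) : Clean (arcs l) := by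
  induction l with
  | nil => exact clean_nil
  | cons z l ih => exact (clean_arc _ _).app ih

lemma arcs_refl (l : List (P × P)) (a : P) : pp a (arcs l) a := by
  induction l with
  | nil => exact rfl
  | cons z l ih => exact pp_of ((pp_arc _ _ _ _).2 (Or.inl rfl)) ih

lemma arcs_mem (l : List (P × P)) {a b : P} (h : (a, b) ∈ l) : pa a (arcs l) b := by
  induction l with
  | nil => simp at h
  | cons z l ih =>
    rcases List.mem_cons.1 h with rfl | h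
    · exact pa_of1 ((pa_arc _ _ _ _).2 ⟨rfl, rfl⟩) (arcs_refl l b)
    · exact pa_of2 ((pp_arc _ _ _ _).2 (Or.inl rfl)) (ih h)

lemma arcs_sub (S : P → P → Prop) (ht : ∀ a b c, S a b → S b c → S a c) (l : List (P × P))
    (hl : ∀ z ∈ l, S z.1 z.2) : ∀ a b, (pp a (arcs l) b → a = b ∨ S a b) ∧
      (pa a (arcs l) b → S a b) := by
  induction l with
  | nil => intro a b; exact ⟨fun h => Or.inl ((pp_nil _ _).1 h), fun h => h.elim⟩
  | cons z l ih =>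
    have ih := ih (fun z hz => hl z (List.mem_cons_of_mem _ hz))
    have hz := hl z List.mem_cons_self
    intro a b
    constructor
    · intro h
      obtain ⟨c, h1, h2⟩ := (clean_arc _ _).pp_app h
      rcases (pp_arc _ _ _ _).1 h1 with rfl | ⟨rfl, rfl⟩
      · exact (ih _ _).1 h2
      · rcases (ih _ _).1 h2 with rfl | h3
        · exact Or.inr hz
        · exact Or.inr (ht _ _ _ hz h3)
    · intro h
      obtain ⟨c, ⟨h1, h2⟩ | ⟨h1, h2⟩⟩ := (clean_arc _ _).pa_app h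
      · obtain ⟨rfl, rfl⟩ := (pa_arc _ _ _ _).1 h1
        rcases (ih _ _).1 h2 with rfl | h3
        · exact hz
        · exact ht _ _ _ hz h3
      · rcases (pp_arc _ _ _ _).1 h1 with rfl | ⟨rfl, rfl⟩
        · exact (ih _ _).2 h2
        · exact ht _ _ _ hz ((ih _ _).2 h2)

/-- The richest word that respects the ranking `h`. -/
lemma exists_rho [Finite P] (h : P → ℚ) : ∃ x : List (Lt P), Clean x ∧
    (∀ a b, pp a x b ↔ h b ≤ h a) ∧ ∀ a b, pa a x b ↔ h b < h a := by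
  classical
  let l : List (P × P) := (Set.toFinite {z : P × P | h z.2 < h z.1}).toFinset.toList
  have hl : ∀ z, z ∈ l ↔ h z.2 < h z.1 := by intro z; simp [l]
  have hs := arcs_sub (fun a b => h b < h a) (fun a b c h1 h2 => h2.trans h1) l
    (fun z hz => (hl z).1 hz)
  refine ⟨relL (fun a b => h b ≤ h a) ++ arcs l, (clean_rel _).app (clean_arcs l), fun a b => ⟨?_,
    fun h1 => pp_of ((pp_rel _ _ _).2 h1) (arcs_refl l b)⟩, fun a b => ⟨?_,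
    fun h1 => pa_of2 ((pp_rel _ _ _).2 le_rfl) (arcs_mem l ((hl (a, b)).2 h1))⟩⟩
  · intro h1
    obtain ⟨c, h2, h3⟩ := (clean_rel _).pp_app h1
    rw [pp_rel] at h2
    rcases (hs _ _).1 h3 with rfl | h4
    · exact h2
    · exact h4.le.trans h2
  · intro h1
    obtain ⟨c, ⟨h2, -⟩ | ⟨h2, h3⟩⟩ := (clean_rel _).pa_app h1
    · exact absurd h2 (pa_rel _ _ _)
    · rw [pp_rel] at h2
      exact ((hs _ _).2 h3).trans_le h2

structure Mor (N : Set ℚ) (h1 : P → ℚ) (x : List (Lt P)) (h2 : P → ℚ) : Prop where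
  clean : Clean x
  m1 : ∀ w ∈ N, ∀ b, h2 b ≤ w → ∃ a, h1 a = w ∧ pp a x b ∧ (h2 b < w → pa a x b)
  m2 : ∀ a b, pp a x b → ∀ w ∈ N, (h1 a ≤ w → h2 b ≤ w) ∧ (h1 a < w → h2 b < w)
  m3 : ∀ a b, pa a x b → h1 a ∈ N → h2 b < h1 a

lemma Mor.mono {N N' : Set ℚ} {h1 h2 : P → ℚ} {x : List (Lt P)} (h : Mor N' h1 x h2)
    (hN : N ⊆ N') : Mor N h1 x h2 :=
  ⟨h.clean, fun w hw => h.m1 w (hN hw), fun a b hp w hw => h.m2 a b hp w (hN hw),
    fun a b hp ha => h.m3 a b hp (hN ha)⟩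

lemma Mor.comp {N : Set ℚ} {h1 h2 h3 : P → ℚ} {x y : List (Lt P)} (hx : Mor N h1 x h2)
    (hy : Mor N h2 y h3) : Mor N h1 (x ++ y) h3 := by
  refine ⟨hx.clean.app hy.clean, fun w hw b hb => ?_, fun a b hp w hw => ?_, fun a b hp ha => ?_⟩
  · obtain ⟨c, c1, c2, c3⟩ := hy.m1 w hw b hb
    obtain ⟨a, a1, a2, -⟩ := hx.m1 w hw c c1.le
    exact ⟨a, a1, pp_of a2 c2, fun h => pa_of2 a2 (c3 h)⟩
  · obtain ⟨c, c1, c2⟩ := hx.clean.pp_app hp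
    exact ⟨fun h => (hy.m2 c b c2 w hw).1 ((hx.m2 a c c1 w hw).1 h),
      fun h => (hy.m2 c b c2 w hw).2 ((hx.m2 a c c1 w hw).2 h)⟩
  · obtain ⟨c, ⟨c1, c2⟩ | ⟨c1, c2⟩⟩ := hx.clean.pa_app hp
    · exact (hy.m2 c b c2 _ ha).2 (hx.m3 a c c1 ha)
    · rcases ((hx.m2 a c c1 _ ha).1 le_rfl).lt_or_eq with h | h
      · exact (hy.m2 c b c2.pp _ ha).2 h
      · rw [← h]; exact hy.m3 c b c2 (by rwa [h])

lemma rho_mor {N : Set ℚ} {h : P → ℚ} (hN : N ⊆ Set.range h) {x : List (Lt P)} (c : Clean x)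
    (h1 : ∀ a b, pp a x b ↔ h b ≤ h a) (h2 : ∀ a b, pa a x b ↔ h b < h a) : Mor N h x h := by
  refine ⟨c, fun w hw b hb => ?_, fun a b hp w _ => ?_, fun a b hp _ => (h2 _ _).1 hp⟩
  · obtain ⟨a, rfl⟩ := hN hw
    exact ⟨a, rfl, (h1 _ _).2 hb, (h2 _ _).2⟩
  · exact ⟨((h1 _ _).1 hp).trans, ((h1 _ _).1 hp).trans_lt⟩

lemma exists_link [Finite P] {N : Set ℚ} {h1 h2 : P → ℚ} (n1 : N ⊆ Set.range h1)
    (n2 : N ⊆ Set.range h2) : ∃ x, x ≠ [] ∧ Mor N h1 x h2 ∧ ∀ a b, pp a x b → h1 a ∈ N := by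
  obtain ⟨y, c, y1, y2⟩ := exists_rho h2
  refine ⟨relL (fun a b => h1 a ∈ N ∧ h2 b = h1 a) ++ y, by simp [relL],
    ⟨(clean_rel _).app c, fun w hw b hb => ?_, fun a b hp w _ => ?_, fun a b hp _ => ?_⟩,
    fun a b hp => ?_⟩
  · obtain ⟨a, rfl⟩ := n1 hw
    obtain ⟨d, hd⟩ := n2 hw
    have := (pp_rel (fun a b => h1 a ∈ N ∧ h2 b = h1 a) a d).2 ⟨hw, hd⟩
    exact ⟨a, rfl, pp_of this ((y1 _ _).2 (by rwa [hd])),
      fun h => pa_of2 this ((y2 _ _).2 (by rwa [hd]))⟩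
  · obtain ⟨d, d1, d2⟩ := (clean_rel _).pp_app hp
    rw [pp_rel] at d1
    have := (y1 _ _).1 d2
    rw [d1.2] at this
    exact ⟨this.trans, this.trans_lt⟩
  · obtain ⟨d, ⟨d1, -⟩ | ⟨d1, d2⟩⟩ := (clean_rel _).pa_app hp
    · exact absurd d1 (pa_rel _ _ _)
    · rw [pp_rel] at d1
      rw [← d1.2]; exact (y2 _ _).1 d2
  · obtain ⟨d, d1, -⟩ := (clean_rel _).pp_app hp
    exact ((pp_rel _ _ _).1 d1).1

variable {Q : Type} (δ : Q → Lt P → Q) (q0 : Q)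

def Rch (q : Q) : Prop := ∃ u, dst δ q0 u = q ∧ ∀ c, Pth (B0 P) none u c ↔ ∃ p, c = some p

lemma rch_ex : ∃ q, Rch δ q0 q := by
  refine ⟨_, [fun a b => a = none ∧ ∃ p, b = some p], rfl, fun c => ?_⟩
  simp [Pth, B0]

variable {δ q0}

lemma Rch.step {q : Q} (h : Rch δ q0 q) {x : List (Lt P)} (c : Clean x)
    (hx : ∀ b, ∃ a, pp a x b) : Rch δ q0 (dst δ q x) := by
  obtain ⟨u, rfl, hu⟩ := h
  refine ⟨u ++ x, dst_app _ _ _ _, fun d => ?_⟩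
  rw [pth_app]
  constructor
  · rintro ⟨e, h1, h2⟩
    obtain ⟨p, rfl⟩ := (hu e).1 h1
    exact c p d h2
  · rintro ⟨b, rfl⟩
    obtain ⟨a, ha⟩ := hx b
    exact ⟨some a, (hu _).2 ⟨a, rfl⟩, ha⟩

lemma clash [Finite P] {Acc : Set Q → Prop}
    (hA : ∀ w, Acc (InfS (run δ q0 w)) ↔ (B0 P).Accepts w) {q : Q} (hq : Rch δ q0 q)
    {x y : List (Lt P)} (hx : dst δ q x = q) (hy : dst δ q y = q) (hv : vis δ q x = vis δ q y)
    (hne : y ≠ []) {a : P} (ha : pa a x a) (c : Clean y) (φ : P → ℚ)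
    (h1 : ∀ a b, pp a y b → φ b ≤ φ a) (h2 : ∀ a b, pa a y b → φ b < φ a) : False := by
  obtain ⟨u, rfl, hu⟩ := hq
  obtain ⟨w, w1, w2, -⟩ := lasso_facts δ q0 (B0 P) u x (by rintro rfl; exact ha) hx
  obtain ⟨w', w3, -, w4⟩ := lasso_facts δ q0 (B0 P) u y hne hy
  have := (hA w).2 (w2 ⟨some a, (hu _).2 ⟨a, rfl⟩, ha⟩)
  rw [w1, hv, ← w3] at this
  obtain ⟨s, s0, s1, s2⟩ := w4 ((hA w').1 this)
  have hs : ∀ k, ∃ p, s k = some p := by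
    intro k
    induction k with
    | zero => exact (hu _).1 s0
    | succ k ih =>
      obtain ⟨p, hp⟩ := ih
      exact c p _ (by rw [← hp]; exact s1 k)
  choose p hp using hs
  have hanti : Antitone (fun k => φ (p k)) := antitone_nat_of_succ_le fun k =>
    h1 _ _ (by have := s1 k; rwa [hp, hp] at this)
  obtain ⟨_, ⟨k0, rfl⟩, hm⟩ := Set.exists_min_image (Set.range p) φ (Set.toFinite _)
    ⟨_, 0, rfl⟩
  obtain ⟨k, hk, h3⟩ := s2 k0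
  rw [hp, hp] at h3
  have h4 := h2 _ _ h3
  have h5 := hanti hk
  have h6 := hm _ ⟨k + 1, rfl⟩
  simp only at h5
  linarith

variable {ι : Type} (H : ι → P → ℚ)

variable (δ q0) in
def Closed (N : Set ℚ) (Z : Set (Q × ι)) : Prop :=
  Z.Nonempty ∧ (∀ z ∈ Z, N ⊆ Set.range (H z.2) ∧ Rch δ q0 z.1) ∧
    ∀ z ∈ Z, ∀ x T, Mor N (H z.2) x (H T) → N ⊆ Set.range (H T) → (dst δ z.1 x, T) ∈ Z

variable (δ q0) in
def GoodZ (N : Set ℚ) (Z : Set (Q × ι)) : Prop :=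
  Closed δ q0 H N Z ∧ ∀ z ∈ Z, ∀ z' ∈ Z, ∃ x, x ≠ [] ∧ Mor N (H z.2) x (H z'.2) ∧
    dst δ z.1 x = z'.1 ∧ ∀ a b, pp a x b → H z.2 a ∈ N

variable {H}

lemma Closed.good [Finite P] [Finite Q] [Finite ι] {N : Set ℚ} {Y : Set (Q × ι)}
    (h : Closed δ q0 H N Y) : ∃ Z ⊆ Y, GoodZ δ q0 H N Z := by
  obtain ⟨Z, h1, h2, h3, h4⟩ := bottom (fun z z' : Q × ι => ∃ x, Mor N (H z.2) x (H z'.2) ∧
    N ⊆ Set.range (H z'.2) ∧ dst δ z.1 x = z'.1) Y h.1 (by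
      rintro z hz ⟨q, T⟩ ⟨x, a1, a2, rfl⟩
      exact h.2.2 z hz x T a1 a2)
  refine ⟨Z, h1, ⟨h2, fun z hz => h.2.1 z (h1 hz), fun z hz x T a1 a2 =>
    h3 z hz _ ⟨x, a1, a2, rfl⟩⟩, fun z hz z' hz' => ?_⟩
  have hn := (h.2.1 z (h1 hz)).1
  obtain ⟨x, x1, x2, x3⟩ := exists_link hn hn
  have := h4 _ (h3 z hz (dst δ z.1 x, z.2) ⟨x, x2, hn, rfl⟩) z' hz'
  clear hz'
  induction this with
  | refl => exact ⟨x, x1, x2, rfl, x3⟩
  | tail _ hs ih =>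
    obtain ⟨y, y1, y2, y3, y4⟩ := ih
    obtain ⟨v, v1, -, v3⟩ := hs
    refine ⟨y ++ v, by simp [y1], y2.comp v1, by rw [dst_app, y3, v3], fun a b hp => ?_⟩
    obtain ⟨c, c1, -⟩ := y2.clean.pp_app hp
    exact y4 a c c1

lemma Closed.sub [Finite P] {N N' : Set ℚ} {Y : Set (Q × ι)} (h : Closed δ q0 H N Y)
    (hN : N ⊆ N') {T : ι} (hT : N' ⊆ Set.range (H T)) :
    Closed δ q0 H N' {z | z ∈ Y ∧ N' ⊆ Set.range (H z.2)} := by
  refine ⟨?_, fun z hz => ⟨hz.2, (h.2.1 z hz.1).2⟩, fun z hz x T' a1 a2 =>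
    ⟨h.2.2 z hz.1 x T' (a1.mono hN) (hN.trans a2), a2⟩⟩
  obtain ⟨z, hz⟩ := h.1
  obtain ⟨x, -, x2, -⟩ := exists_link (h.2.1 z hz).1 (hN.trans hT)
  exact ⟨_, h.2.2 z hz x T x2 (hN.trans hT), hT⟩

def Agree (N : Set ℚ) (h h' : P → ℚ) : Prop :=
  ∀ a, ∀ w ∈ N, (h a < w ↔ h' a < w) ∧ (h a ≤ w ↔ h' a ≤ w)

lemma GoodZ.half [Finite P] {Acc : Set Q → Prop}
    (hA : ∀ w, Acc (InfS (run δ q0 w)) ↔ (B0 P).Accepts w) {N : Set ℚ} {Z : Set (Q × ι)}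
    (h : GoodZ δ q0 H N Z) {q : Q} {T T' : ι} (hT : (q, T) ∈ Z) (hT' : (q, T') ∈ Z) (a : P)
    {w : ℚ} (hw : w ∈ N) (h1 : H T a ≤ w) (h2 : w ≤ H T' a) (h3 : H T a < w ∨ w < H T' a) :
    False := by
  obtain ⟨x, x1, x2, x3, x4⟩ := h.2 _ hT _ hT'
  obtain ⟨r, c, r1, r2⟩ := exists_rho (H T')
  have hn := (h.1.2.1 _ hT').1
  have mr := rho_mor hn c r1 r2
  obtain ⟨u, -, u2, u3, -⟩ := h.2 _ (h.1.2.2 _ hT' r T' mr hn) _ hT
  simp only at x2 x3 x4 u2 u3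
  have my := mr.comp u2
  have dy : dst δ q (r ++ u) = q := by rw [dst_app, u3]
  have mxy := x2.comp my
  obtain ⟨b1, b11, b12, b13⟩ := my.m1 w hw a h1
  obtain ⟨b0, b01, b02, -⟩ := x2.m1 w hw b1 b11.le
  obtain ⟨b2, b21, b22, -⟩ := u2.m1 w hw b0 b01.le
  have dxy : dst δ q (x ++ (r ++ u)) = q := by rw [dst_app, x3, dy]
  have hq : Rch δ q0 q := (h.1.2.1 _ hT).2
  refine clash hA hq (x := x ++ (r ++ u) ++ (r ++ u)) (y := x ++ (r ++ u))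
    (by rw [dst_app, dxy, dy]) dxy ?_ (by simp [x1]) (a := b0) ?_
    mxy.clean (H T) (fun a b hp => ?_) (fun a b hp => ?_)
  · rw [vis_app δ (x ++ (r ++ u)), dxy, vis_app δ x, x3, Set.union_assoc, Set.union_self]
  · rcases h3 with h3 | h3
    · exact pa_of1 (pa_of2 b02 (b13 h3)) (pp_of ((r1 _ _).2 (by rwa [b21])) b22)
    · exact pa_of2 (pp_of b02 b12) (pa_of1 ((r2 _ _).2 (by rwa [b21])) b22)
  · obtain ⟨d, d1, -⟩ := x2.clean.pp_app hp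
    exact (mxy.m2 a b hp _ (x4 a d d1)).1 le_rfl
  · obtain ⟨d, d1, -⟩ := x2.clean.pp_app hp.pp
    exact mxy.m3 a b hp (x4 a d d1)

lemma GoodZ.agree [Finite P] {Acc : Set Q → Prop}
    (hA : ∀ w, Acc (InfS (run δ q0 w)) ↔ (B0 P).Accepts w) {N : Set ℚ} {Z : Set (Q × ι)}
    (h : GoodZ δ q0 H N Z) {q : Q} {T T' : ι} (hT : (q, T) ∈ Z) (hT' : (q, T') ∈ Z) :
    Agree N (H T) (H T') := by
  intro a w hw
  refine ⟨⟨fun h1 => ?_, fun h1 => ?_⟩, ⟨fun h1 => ?_, fun h1 => ?_⟩⟩ <;> by_contra hc <;>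
    push Not at hc
  · exact h.half hA hT hT' a hw h1.le hc (Or.inl h1)
  · exact h.half hA hT' hT a hw h1.le hc (Or.inl h1)
  · exact h.half hA hT hT' a hw h1 hc.le (Or.inr hc)
  · exact h.half hA hT' hT a hw h1 hc.le (Or.inr hc)

theorem stages [Finite P] [Finite Q] [Finite ι] {Acc : Set Q → Prop}
    (hA : ∀ w, Acc (InfS (run δ q0 w)) ↔ (B0 P).Accepts w) (H : ι → P → ℚ)
    (Ns : ι → ℕ → Set ℚ) (top : ℚ) (htop : ∀ T a, H T a ≤ top) (h0 : ∀ T, Ns T 0 = {top})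
    (hmono : ∀ T i, Ns T i ⊆ Ns T (i + 1)) (hr : ∀ T i, Ns T i ⊆ Set.range (H T))
    (hdet : ∀ T T' i, Ns T i = Ns T' i → Agree (Ns T i) (H T) (H T') →
      Ns T (i + 1) = Ns T' (i + 1)) (I : ℕ)
    (hfin : ∀ T T', Ns T I = Ns T' I → Agree (Ns T I) (H T) (H T') → T = T') :
    ∃ S : ι → Set Q, (∀ T T', ∀ q ∈ S T, q ∈ S T' → T = T') ∧ ∀ T, (S T).Nonempty ∧
      ∀ q ∈ S T, Rch δ q0 q ∧ ∀ x, Mor (Ns T I) (H T) x (H T) → dst δ q x ∈ S T := by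
  classical
  let pick : Set ℚ → Set (Q × ι) → Set (Q × ι) := fun N Y =>
    if h : ∃ Z ⊆ Y, GoodZ δ q0 H N Z then h.choose else ∅
  have hpick : ∀ N Y, (∃ Z ⊆ Y, GoodZ δ q0 H N Z) → pick N Y ⊆ Y ∧ GoodZ δ q0 H N (pick N Y) := by
    intro N Y h
    simp only [pick, dif_pos h]
    exact h.choose_spec
  let Z : ι → ℕ → Set (Q × ι) := fun T i =>
    Nat.rec (pick {top} Set.univ) (fun i Y => pick (Ns T (i + 1)) Y) i
  have hZ : ∀ T i, GoodZ δ q0 H (Ns T i) (Z T i) ∧ Z T (i + 1) ⊆ Z T i := by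
    have step : ∀ T i, GoodZ δ q0 H (Ns T i) (Z T i) →
        Z T (i + 1) ⊆ Z T i ∧ GoodZ δ q0 H (Ns T (i + 1)) (Z T (i + 1)) := by
      intro T i h
      obtain ⟨Y, h1, h2⟩ := (h.1.sub (hmono T i) (hr T (i + 1))).good
      exact hpick _ _ ⟨Y, fun z hz => (h1 hz).1, h2⟩
    have all : ∀ T i, GoodZ δ q0 H (Ns T i) (Z T i) := by
      intro T i
      induction i with
      | zero =>
        have hc : Closed δ q0 H {top} {z | Rch δ q0 z.1} := by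
          obtain ⟨q, hq⟩ := rch_ex δ q0
          refine ⟨⟨(q, T), hq⟩, fun z hz => ⟨by rw [← h0 z.2]; exact hr _ _, hz⟩,
            fun z hz x T' m _ => Rch.step hz m.clean fun b => ?_⟩
          obtain ⟨a, -, ha, -⟩ := m.m1 top rfl b (htop _ _)
          exact ⟨a, ha⟩
        obtain ⟨Y, -, h2⟩ := hc.good
        rw [h0]
        exact (hpick _ _ ⟨Y, Set.subset_univ _, h2⟩).2
      | succ i ih => exact (step T i ih).2
    exact fun T i => ⟨all T i, (step T i (all T i)).1⟩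
  have hanti : ∀ T, Antitone (Z T) := fun T => antitone_nat_of_succ_le fun i => (hZ T i).2
  refine ⟨fun T => {q | (q, T) ∈ Z T I}, fun T T' q h1 h2 => ?_, fun T => ⟨?_, fun q hq =>
    ⟨((hZ T I).1.1.2.1 _ hq).2, fun x m => (hZ T I).1.1.2.2 _ hq x T m (hr T I)⟩⟩⟩
  · have key : ∀ i ≤ I, Ns T i = Ns T' i ∧ Z T i = Z T' i := by
      intro i
      induction i with
      | zero => intro _; exact ⟨by rw [h0, h0], rfl⟩
      | succ i ih =>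
        intro hi
        obtain ⟨e1, e2⟩ := ih (by omega)
        have ag := (hZ T i).1.agree hA (hanti T (by omega : i ≤ I) h1)
          (by rw [e2]; exact hanti T' (by omega : i ≤ I) h2)
        have e3 := hdet T T' i e1 ag
        refine ⟨e3, ?_⟩
        show pick _ (Z T i) = pick _ (Z T' i)
        rw [e3, e2]
    obtain ⟨e1, e2⟩ := key I le_rfl
    exact hfin T T' e1 ((hZ T I).1.agree hA h1 (by rw [e2]; exact h2))
  · obtain ⟨z, hz⟩ := (hZ T I).1.1.1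
    obtain ⟨x, -, x2, -⟩ := exists_link ((hZ T I).1.1.2.1 z hz).1 (hr T I)
    exact ⟨_, (hZ T I).1.1.2.2 z hz x T x2 (hr T I)⟩

end

end Pool.Agent.MP_0f075e_lc
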